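import Mathlib
import Pool.Agent.Lib.MP_5dc4fa_al.Alg.Basic

section

section

/-!
Filtrations with a domain as associated graded ring (discrete valuations), and inner derivations.
-/

namespace Pool.Agent.Lib.MP_5dc4fa_al.DV

/-- A separated exhaustive `ℤ`-filtration whose associated graded ring is a domain. -/
structure DFilt (R : Type*) [Ring R] where
  F : ℤ → AddSubgroup R
  anti : ∀ {m n : ℤ}, m ≤ n → F n ≤ F m
  mul : ∀ {m n : ℤ} {x y : R}, x ∈ F m → y ∈ F n → x * y ∈ F (m + n)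
  one : (1 : R) ∈ F 0
  one' : (1 : R) ∉ F 1
  sep : ∀ x : R, (∀ n, x ∈ F n) → x = 0
  exh : ∀ x : R, ∃ n, x ∈ F n
  dom : ∀ {m n : ℤ} {x y : R}, x ∈ F m → y ∈ F n → x * y ∈ F (m + n + 1) →
    x ∈ F (m + 1) ∨ y ∈ F (n + 1)

set_option linter.unusedSectionVars false

variable {R : Type*} [Ring R]

/-- Left multiplication. -/
def mL (x : R) : AddMonoid.End R := AddMonoidHom.mulLeft x

/-- Right multiplication. -/
def mR (x : R) : AddMonoid.End R := AddMonoidHom.mulRight x

/-- The inner derivation `y ↦ x * y - y * x`. -/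
def ad (x : R) : AddMonoid.End R := mL x - mR x

theorem mL_apply (x y : R) : mL x y = x * y := rfl

theorem mR_apply (x y : R) : mR x y = y * x := rfl

theorem ad_apply (x y : R) : ad x y = x * y - y * x := rfl

theorem ad_mul (x y z : R) : ad x (y * z) = ad x y * z + y * ad x z := by
  simp only [ad_apply]; noncomm_ring

theorem ad_pow_succ (x : R) (n : ℕ) (y : R) : (ad x ^ (n + 1)) y = ad x ((ad x ^ n) y) := by
  rw [pow_succ']; rfl

theorem ad_pow_succ' (x : R) (n : ℕ) (y : R) : (ad x ^ (n + 1)) y = (ad x ^ n) (ad x y) := by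
  rw [pow_succ]; rfl

theorem ad_pow_add (x : R) (m n : ℕ) (y : R) : (ad x ^ (m + n)) y = (ad x ^ m) ((ad x ^ n) y) := by
  rw [pow_add]; rfl

/-- `ad x` is linear over the elements commuting with `x`. -/
theorem ad_pow_left (x c : R) (h : x * c = c * x) (n : ℕ) (y : R) :
    (ad x ^ n) (c * y) = c * (ad x ^ n) y := by
  induction n with
  | zero => rfl
  | succ n ih =>
    rw [ad_pow_succ, ih, ad_pow_succ, ad_mul, ad_apply x c, h, sub_self, zero_mul, zero_add]

theorem ad_pow_right (x c : R) (h : x * c = c * x) (n : ℕ) (y : R) :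
    (ad x ^ n) (y * c) = (ad x ^ n) y * c := by
  induction n with
  | zero => rfl
  | succ n ih =>
    rw [ad_pow_succ, ih, ad_pow_succ, ad_mul, ad_apply x c, h, sub_self, mul_zero, add_zero]

section charP

variable (p : ℕ) [Fact p.Prime] [CharP R p]

theorem charP_end : CharP (AddMonoid.End R) p := by
  have hinj : Function.Injective (Module.toAddMonoidEnd R R) := by
    intro a b h
    have h1 : a * 1 = b * 1 := DFunLike.congr_fun h (1 : R)
    rwa [mul_one, mul_one] at h1
  exact charP_of_injective_ringHom hinj p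

theorem mulLeft_pow (x : R) (n : ℕ) (y : R) :
    (mL x ^ n) y = x ^ n * y := by
  induction n generalizing y with
  | zero => rw [pow_zero, pow_zero, one_mul]; rfl
  | succ n ih =>
    rw [pow_succ, pow_succ, mul_assoc]
    exact ih _

theorem mulRight_pow (x : R) (n : ℕ) (y : R) :
    (mR x ^ n) y = y * x ^ n := by
  induction n generalizing y with
  | zero => rw [pow_zero, pow_zero, mul_one]; rfl
  | succ n ih =>
    rw [pow_succ, pow_succ', ← mul_assoc]
    exact ih _

/-- In characteristic `p`: `ad x ^ q = ad (x ^ q)`. -/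
theorem ad_pow_char (x : R) (k : ℕ) (y : R) :
    (ad x ^ (p ^ k)) y = x ^ (p ^ k) * y - y * x ^ (p ^ k) := by
  have := charP_end (R := R) p
  have hcomm : Commute (mL x) (mR x) := by
    refine DFunLike.ext _ _ fun z => ?_
    change x * (z * x) = (x * z) * x
    rw [mul_assoc]
  have h1 := sub_pow_char_pow_of_commute (p := p) k hcomm
  have h2 := DFunLike.congr_fun h1 y
  have h3 : (mL x ^ p ^ k -
      mR x ^ p ^ k) y = x ^ (p ^ k) * y - y * x ^ (p ^ k) := by
    rw [← mulLeft_pow x (p ^ k) y, ← mulRight_pow x (p ^ k) y]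
    rfl
  rw [← h3]
  exact h2

/-- In characteristic `p`: `(x + w) ^ q = x ^ q + (ad x + w) ^ q (1)`. -/
theorem add_pow_char_ad (x w : R) (k : ℕ) :
    (x + w) ^ (p ^ k) = x ^ (p ^ k) +
      ((ad x + mL w) ^ (p ^ k)) 1 := by
  have := charP_end (R := R) p
  have hcomm : Commute (mR x) (ad x + mL w) := by
    refine DFunLike.ext _ _ fun z => ?_
    change (x * z - z * x + w * z) * x = (x * (z * x) - (z * x) * x + w * (z * x))
    noncomm_ring
  have h1 := add_pow_char_pow_of_commute (p := p) k hcomm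
  have h2 : mR x +
      (ad x + mL w) = mL (x + w) := by
    refine DFunLike.ext _ _ fun z => ?_
    change z * x + (x * z - z * x + w * z) = (x + w) * z
    noncomm_ring
  rw [h2] at h1
  have h3 := DFunLike.congr_fun h1 (1 : R)
  rw [mulLeft_pow, mul_one] at h3
  rw [h3]
  have h4 : (mR x ^ p ^ k) (1 : R) = x ^ p ^ k := by
    rw [mulRight_pow, one_mul]
  rw [← h4]
  rfl

end charP

end Pool.Agent.Lib.MP_5dc4fa_al.DV
end

section

/-!
Elementary facts on filtrations with a domain as associated graded ring.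
-/

namespace Pool.Agent.Lib.MP_5dc4fa_al.DV

set_option linter.unusedSectionVars false

variable {R : Type*} [Ring R] (D : DFilt R)

namespace DFilt

theorem le {m n : ℤ} (h : m ≤ n) {x : R} (hx : x ∈ D.F n) : x ∈ D.F m := D.anti h hx

theorem mul' {m n k : ℤ} {x y : R} (hx : x ∈ D.F m) (hy : y ∈ D.F n) (h : k ≤ m + n) :
    x * y ∈ D.F k := D.anti h (D.mul hx hy)

/-- Cancellation of an element of exact degree `m` on the left. -/
theorem cancel_left {m n : ℤ} {x y : R} (hx : x ∈ D.F m) (hx' : x ∉ D.F (m + 1))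
    (h : x * y ∈ D.F (m + n)) : y ∈ D.F n := by
  obtain ⟨k, hk⟩ := D.exh y
  rcases le_total n k with h1 | h1
  · exact D.le h1 hk
  · induction n, h1 using Int.leInduction with
    | base => exact hk
    | succ n hn ih =>
      have h2 : y ∈ D.F n := ih (D.le (by omega) h)
      have h3 : x * y ∈ D.F (m + n + 1) := by rwa [add_assoc]
      exact (D.dom hx h2 h3).resolve_left hx'

theorem cancel_right {m n : ℤ} {x y : R} (hx : x ∈ D.F m) (hx' : x ∉ D.F (m + 1))
    (h : y * x ∈ D.F (n + m)) : y ∈ D.F n := by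
  obtain ⟨k, hk⟩ := D.exh y
  rcases le_total n k with h1 | h1
  · exact D.le h1 hk
  · induction n, h1 using Int.leInduction with
    | base => exact hk
    | succ n hn ih =>
      have h2 : y ∈ D.F n := ih (D.le (by omega) h)
      have h3 : y * x ∈ D.F (n + m + 1) := by
        rwa [add_right_comm]
      exact (D.dom h2 hx h3).resolve_right hx'

theorem exact_mul {m n : ℤ} {x y : R} (hx : x ∈ D.F m) (hx' : x ∉ D.F (m + 1)) (hy : y ∈ D.F n)
    (hy' : y ∉ D.F (n + 1)) : x * y ∉ D.F (m + n + 1) := fun h =>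
  (D.dom hx hy h).elim hx' hy'

theorem pow_mem {m : ℤ} {x : R} (hx : x ∈ D.F m) (n : ℕ) : x ^ n ∈ D.F (n * m) := by
  induction n with
  | zero => simpa using D.one
  | succ n ih =>
    rw [pow_succ]
    exact D.mul' ih hx (by push_cast; linarith [add_mul (n : ℤ) 1 m])

theorem exact_pow {m : ℤ} {x : R} (hx : x ∈ D.F m) (hx' : x ∉ D.F (m + 1)) (n : ℕ) :
    x ^ n ∉ D.F (n * m + 1) := by
  induction n with
  | zero => simpa using D.one'
  | succ n ih =>
    rw [pow_succ]
    have := D.exact_mul (D.pow_mem hx n) ih hx hx'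
    have e : ((n + 1 : ℕ) : ℤ) * m + 1 = n * m + m + 1 := by push_cast; ring
    rwa [e]

theorem exists_exact {x : R} (hx : x ≠ 0) : ∃ m, x ∈ D.F m ∧ x ∉ D.F (m + 1) := by
  by_contra h
  push Not at h
  refine hx (D.sep x fun n => ?_)
  obtain ⟨k, hk⟩ := D.exh x
  rcases le_total n k with h1 | h1
  · exact D.le h1 hk
  · induction n, h1 using Int.leInduction with
    | base => exact hk
    | succ n hn ih => exact h n ih

include D in
theorem mul_ne_zero {x y : R} (hx : x ≠ 0) (hy : y ≠ 0) : x * y ≠ 0 := by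
  obtain ⟨m, h1, h2⟩ := D.exists_exact hx
  obtain ⟨n, h3, h4⟩ := D.exists_exact hy
  intro h
  exact D.exact_mul h1 h2 h3 h4 (by rw [h]; exact AddSubgroup.zero_mem _)

theorem zero (n : ℤ) : (0 : R) ∈ D.F n := AddSubgroup.zero_mem _

/-- Elements of `1 + F 1`. -/
def U1 (u : R) : Prop := u - 1 ∈ D.F 1

theorem U1.mem {u : R} (hu : D.U1 u) : u ∈ D.F 0 := by
  have : u = (u - 1) + 1 := by abel
  rw [this]
  exact AddSubgroup.add_mem _ (D.le (by omega) hu) D.one

theorem U1.mul {u w : R} (hu : D.U1 u) (hw : D.U1 w) : D.U1 (u * w) := by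
  have : u * w - 1 = u * (w - 1) + (u - 1) := by noncomm_ring
  unfold U1
  rw [this]
  exact AddSubgroup.add_mem _ (D.mul' hu.mem hw (by omega)) hu

theorem U1.one : D.U1 (1 : R) := by
  unfold U1
  rw [sub_self]
  exact D.zero 1

theorem U1.pow {u : R} (hu : D.U1 u) (n : ℕ) : D.U1 (u ^ n) := by
  induction n with
  | zero => rw [pow_zero]; exact U1.one D
  | succ n ih => rw [pow_succ]; exact ih.mul D hu

/-- Multiplying by elements of `1 + F 1` does not change the leading form. -/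
theorem U1.sandwich {u w c : R} {N : ℤ} (hu : D.U1 u) (hw : D.U1 w) (hc : c ∈ D.F N) :
    u * c * w - c ∈ D.F (N + 1) := by
  have : u * c * w - c = u * c * (w - 1) + (u - 1) * c := by noncomm_ring
  rw [this]
  exact AddSubgroup.add_mem _ (D.mul' (D.mul hu.mem hc) hw (by omega)) (D.mul' hu hc (by omega))

theorem U1.ne_zero {u : R} (hu : D.U1 u) : u ≠ 0 := by
  rintro rfl
  unfold U1 at hu
  rw [zero_sub] at hu
  exact D.one' (by simpa using AddSubgroup.neg_mem _ hu)

theorem comm_pow {u w : R} {N : ℤ} (hu : u ∈ D.F 0) (hc : u * w - w * u ∈ D.F N) (n : ℕ) :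
    u ^ n * w - w * u ^ n ∈ D.F N := by
  induction n with
  | zero => simp
  | succ n ih =>
    have : u ^ (n + 1) * w - w * u ^ (n + 1) = u * (u ^ n * w - w * u ^ n) +
        (u * w - w * u) * u ^ n := by
      rw [pow_succ']; noncomm_ring
    rw [this]
    refine AddSubgroup.add_mem _ (D.mul' hu ih (by omega)) (D.mul' hc (D.pow_mem hu n) (by simp))

/-- `u ^ n * w ^ n` and `(u * w) ^ n` agree up to the commutator. -/
theorem mul_pow_sub {u w : R} {N : ℤ} (hu : u ∈ D.F 0) (hw : w ∈ D.F 0)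
    (hc : u * w - w * u ∈ D.F N) (n : ℕ) : u ^ n * w ^ n - (u * w) ^ n ∈ D.F N := by
  induction n with
  | zero => simp
  | succ n ih =>
    have : u ^ (n + 1) * w ^ (n + 1) - (u * w) ^ (n + 1) =
        u * (u ^ n * w - w * u ^ n) * w ^ n + u * w * (u ^ n * w ^ n - (u * w) ^ n) := by
      rw [pow_succ' u, pow_succ' w, pow_succ' (u * w)]; noncomm_ring
    rw [this]
    refine AddSubgroup.add_mem _ (D.mul' (D.mul' hu (D.comm_pow hu hc n) (k := N) (by omega))
      (D.pow_mem hw n) (by simp)) (D.mul' (D.mul' hu hw (k := 0) (by omega)) ih (by omega))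

theorem comm_pow_one {u w : R} {N : ℤ} (hu : D.U1 u) (hc : u * w - w * u ∈ D.F N) (n : ℕ) :
    u ^ n * w - w * u ^ n - n • (u * w - w * u) ∈ D.F (N + 1) := by
  induction n with
  | zero => simp
  | succ n ih =>
    have : u ^ (n + 1) * w - w * u ^ (n + 1) - (n + 1) • (u * w - w * u) =
        (u - 1) * (u ^ n * w - w * u ^ n) + (u ^ n * w - w * u ^ n - n • (u * w - w * u)) +
        (1 * (u * w - w * u) * u ^ n - (u * w - w * u)) := by
      rw [pow_succ', succ_nsmul]; noncomm_ring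
    rw [this]
    refine AddSubgroup.add_mem _ (AddSubgroup.add_mem _ (D.mul' hu (D.comm_pow hu.mem hc n)
      (by omega)) ih) (U1.sandwich D (U1.one D) (hu.pow D n) hc)

theorem mul_pow_sub_one {u w : R} {N : ℤ} (hu : D.U1 u) (hw : D.U1 w)
    (hc : u * w - w * u ∈ D.F N) (n : ℕ) :
    u ^ n * w ^ n - (u * w) ^ n - (n.choose 2) • (u * w - w * u) ∈ D.F (N + 1) := by
  induction n with
  | zero => simp
  | succ n ih =>
    set c := u * w - w * u with hcdef
    set d := u ^ n * w - w * u ^ n with hd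
    set e := u ^ n * w ^ n - (u * w) ^ n with he
    have h1 : d ∈ D.F N := D.comm_pow hu.mem hc n
    have h2 : e ∈ D.F N := D.mul_pow_sub hu.mem hw.mem hc n
    have : u ^ (n + 1) * w ^ (n + 1) - (u * w) ^ (n + 1) - ((n + 1).choose 2) • c =
        (u * d * w ^ n - d) + (d - n • c) + ((u * w) * e * 1 - e) + (e - n.choose 2 • c) := by
      rw [Nat.choose_succ_succ' n 1, Nat.choose_one_right, add_smul, hd, he, pow_succ' u,
        pow_succ' w, pow_succ' (u * w)]
      noncomm_ring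
    rw [this]
    exact AddSubgroup.add_mem _ (AddSubgroup.add_mem _ (AddSubgroup.add_mem _
      (U1.sandwich D hu (hw.pow D n) h1) (D.comm_pow_one hu hc n))
      (U1.sandwich D (hu.mul D hw) (U1.one D) h2)) ih

/-- Differences of powers. -/
theorem pow_sub_pow {z t : R} {N : ℤ} (hz : D.U1 z) (ht : D.U1 t) (h : z - t ∈ D.F N) (n : ℕ) :
    z ^ n - t ^ n - n • (z - t) ∈ D.F (N + 1) := by
  induction n with
  | zero => simp
  | succ n ih =>
    have h1 : z ^ n - t ^ n ∈ D.F N := by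
      have : z ^ n - t ^ n = (z ^ n - t ^ n - n • (z - t)) + n • (z - t) := by abel
      rw [this]
      exact AddSubgroup.add_mem _ (D.le (by omega) ih) (AddSubgroup.nsmul_mem _ h n)
    have : z ^ (n + 1) - t ^ (n + 1) - (n + 1) • (z - t) =
        (z - 1) * (z ^ n - t ^ n) + (z ^ n - t ^ n - n • (z - t)) +
        (1 * (z - t) * t ^ n - (z - t)) := by
      rw [pow_succ', pow_succ', succ_nsmul]; noncomm_ring
    rw [this]
    exact AddSubgroup.add_mem _ (AddSubgroup.add_mem _ (D.mul' hz h1 (by omega)) ih)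
      (U1.sandwich D (U1.one D) (ht.pow D n) h)

variable (p : ℕ) [Fact p.Prime] [CharP R p]

theorem nsmul_cancel {n : ℕ} (hn : ¬ p ∣ n) {N : ℤ} {c : R} (h : n • c ∈ D.F N) : c ∈ D.F N := by
  have hcop : Nat.Coprime n p := ((Nat.Prime.coprime_iff_not_dvd (Fact.out : p.Prime)).2 hn).symm
  obtain ⟨m, _, hm⟩ := Nat.exists_mul_mod_eq_one_of_coprime hcop (Fact.out : p.Prime).one_lt
  have h1 : m • (n • c) = c := by
    rw [smul_smul, mul_comm m n]
    have : ((n * m : ℕ) : R) = 1 := by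
      rw [← Nat.mod_add_div (n * m) p, hm]
      push_cast
      rw [CharP.cast_eq_zero, zero_mul, add_zero]
    rw [nsmul_eq_mul, this, one_mul]
  rw [← h1]
  exact AddSubgroup.nsmul_mem _ h m

/-- Case A: an exponent `n` with `p` not dividing `n (n - 1) / 2`. -/
theorem caseA {u w : R} (hu : D.U1 u) (hw : D.U1 w) {n : ℕ} (hn : ¬ p ∣ n.choose 2)
    (h : (u * w) ^ n = u ^ n * w ^ n) : u * w - w * u = 0 := by
  refine D.sep _ fun N => ?_
  have key : ∀ k : ℕ, u * w - w * u ∈ D.F k := by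
    intro k
    induction k with
    | zero =>
      exact AddSubgroup.sub_mem _ (D.mul' hu.mem hw.mem (by simp)) (D.mul' hw.mem hu.mem (by simp))
    | succ k ih =>
      refine D.nsmul_cancel p hn ?_
      have h1 := D.mul_pow_sub_one hu hw ih n
      rw [h, sub_self, zero_sub] at h1
      simpa using AddSubgroup.neg_mem _ h1
  exact D.le (Int.self_le_toNat N) (key N.toNat)

/-- Cases B and C. -/
theorem caseBC {U W Z : R} (hU : D.U1 U) (hW : D.U1 W) (hZ : D.U1 Z) {m : ℕ} (hm : ¬ p ∣ m)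
    (h : Z ^ m = U ^ m * W ^ m) {N : ℤ} (hN : U * W - W * U ∈ D.F N) : Z - U * W ∈ D.F N := by
  have hUW := hU.mul D hW
  have h0 : Z - U * W ∈ D.F 0 := AddSubgroup.sub_mem _ hZ.mem hUW.mem
  rcases le_total N 0 with h1 | h1
  · exact D.le h1 h0
  have key : ∀ k : ℕ, (k : ℤ) ≤ N → Z - U * W ∈ D.F k := by
    intro k
    induction k with
    | zero => intro _; exact h0
    | succ k ih =>
      intro hk
      push_cast at hk ⊢
      have h2 := ih (by omega)
      refine D.nsmul_cancel p hm ?_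
      have h3 := D.pow_sub_pow hZ hUW h2 m
      have h4 := D.mul_pow_sub hU.mem hW.mem hN m
      have : m • (Z - U * W) = (U ^ m * W ^ m - (U * W) ^ m) -
          (Z ^ m - (U * W) ^ m - m • (Z - U * W)) := by rw [h]; abel
      rw [this]
      exact AddSubgroup.sub_mem _ (D.le hk h4) h3
  have := key N.toNat (by rw [Int.toNat_of_nonneg h1])
  rwa [Int.toNat_of_nonneg h1] at this

end DFilt

end Pool.Agent.Lib.MP_5dc4fa_al.DV
end
end

section

section

/-!
Newton expansion of `(u * v) ^ n - u ^ n * v ^ n` for `u = 1 + x`, `v = 1 + y`, in any ring.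
-/

namespace Pool.Agent.Lib.MP_5dc4fa_al

variable {R : Type*} [Ring R]

/-- The additive map `r ↦ x * r + r * y + x * r * y`, that is `(1 + x) * r * (1 + y) - r`. -/
def psi (x y : R) : Module.End ℤ R :=
  LinearMap.mulLeft ℤ (1 + x) * LinearMap.mulRight ℤ (1 + y) - 1

theorem psi_apply (x y r : R) : psi x y r = x * r + r * y + x * r * y := by
  simp [psi]
  noncomm_ring

/-- The Newton coefficients. -/
def coeffA (x y : R) (k : ℕ) : R := (x + y + x * y) ^ k - ((psi x y) ^ k) 1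

theorem psi_add_one_pow (x y : R) (n : ℕ) :
    ((psi x y + 1) ^ n) 1 = (1 + x) ^ n * (1 + y) ^ n := by
  have h : psi x y + 1 = LinearMap.mulLeft ℤ (1 + x) * LinearMap.mulRight ℤ (1 + y) := by
    simp [psi]
  rw [h]
  induction n with
  | zero => simp
  | succ n ih =>
    rw [pow_succ', Module.End.mul_apply, ih]
    simp only [Module.End.mul_apply, LinearMap.mulLeft_apply, LinearMap.mulRight_apply]
    rw [pow_succ' (1 + x), pow_succ (1 + y)]
    simp only [mul_assoc]

theorem add_one_pow_sum {S : Type*} [Ring S] (z : S) (n : ℕ) :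
    (z + 1) ^ n = ∑ k ∈ Finset.range (n + 1), n.choose k • z ^ k := by
  rw [(Commute.one_right z).add_pow]
  refine Finset.sum_congr rfl fun k _ => ?_
  simp [nsmul_eq_mul, (Nat.cast_commute (n.choose k) (z ^ k)).eq]

theorem newton (x y : R) (n : ℕ) :
    ((1 + x) * (1 + y)) ^ n - (1 + x) ^ n * (1 + y) ^ n =
      ∑ k ∈ Finset.range (n + 1), n.choose k • coeffA x y k := by
  have h1 : (1 + x) * (1 + y) = (x + y + x * y) + 1 := by noncomm_ring
  rw [h1, ← psi_add_one_pow, add_one_pow_sum, add_one_pow_sum (psi x y), LinearMap.sum_apply,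
    ← Finset.sum_sub_distrib]
  refine Finset.sum_congr rfl fun k _ => ?_
  simp [coeffA, smul_sub]

@[simp] theorem coeffA_zero (x y : R) : coeffA x y 0 = 0 := by
  simp [coeffA]

@[simp] theorem coeffA_one (x y : R) : coeffA x y 1 = 0 := by
  simp [coeffA, psi_apply]

theorem coeffA_succ (x y : R) (k : ℕ) :
    coeffA x y (k + 1) = psi x y (coeffA x y k) +
      (1 + x) * (y * (x + y + x * y) ^ k - (x + y + x * y) ^ k * y) := by
  simp only [coeffA, pow_succ', Module.End.mul_apply, map_sub]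
  rw [psi_apply x y ((x + y + x * y) ^ k)]
  noncomm_ring

theorem coeffA_two (x y : R) : coeffA x y 2 = (1 + x) * (y * x - x * y) * (1 + y) := by
  rw [coeffA_succ x y 1, coeffA_one]
  simp only [map_zero, pow_one]
  noncomm_ring

end Pool.Agent.Lib.MP_5dc4fa_al
end

section

/-!
The `p`-adic step: in a ring with `1` without `p`-torsion satisfying
`∀ x y, ∃ n ≥ 2, (x * y) ^ n = x ^ n * y ^ n`, commutators are divisible by every power of `p`.
-/

namespace Pool.Agent.Lib.MP_5dc4fa_al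

theorem choose_two_lt (k : ℕ) : (k + 3).choose 2 < 4 ^ (k + 1) := by
  induction k with
  | zero => decide
  | succ k ih =>
    have h1 : (k + 1 + 3).choose 2 = (k + 3).choose 2 + (k + 3) := by
      rw [show k + 1 + 3 = (k + 3) + 1 by ring, Nat.choose_succ_succ' (k + 3) 1, Nat.choose_one_right]
      ring
    have h2 : k + 3 ≤ (k + 3).choose 2 := by
      rw [Nat.choose_two_right]
      rw [Nat.le_div_iff_mul_le (by norm_num)]
      have : k + 3 - 1 = k + 2 := by omega
      rw [this]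
      nlinarith
    have h3 : 4 ^ (k + 1 + 1) = 4 * 4 ^ (k + 1) := by ring
    omega

/-- Number-theoretic input: for `k ≥ 3`, `p ^ (v + 1)` divides `choose n k * p ^ (2 * (k - 2))`
whenever `p ^ v` divides `choose n 2`. -/
theorem dvd_choose (p : ℕ) (hp : p.Prime) (n v k : ℕ) (hv : p ^ v ∣ n.choose 2) :
    p ^ (v + 1) ∣ n.choose (k + 3) * p ^ (2 * (k + 1)) := by
  obtain ⟨e, w, hw, hew⟩ := Nat.exists_eq_pow_mul_and_not_dvd (n := (k + 3).choose 2)
    (Nat.choose_pos (by omega)).ne' p hp.ne_one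
  have hmul : n.choose (k + 3) * (k + 3).choose 2 = n.choose 2 * (n - 2).choose (k + 3 - 2) :=
    Nat.choose_mul (by omega)
  have h1 : p ^ v ∣ n.choose (k + 3) * (p ^ e * w) := by
    rw [← hew, hmul]
    exact Dvd.dvd.mul_right hv _
  have hcop : Nat.Coprime (p ^ v) w :=
    Nat.Coprime.pow_left v ((Nat.Prime.coprime_iff_not_dvd hp).2 hw)
  have h2 : p ^ v ∣ n.choose (k + 3) * p ^ e := by
    refine hcop.dvd_of_dvd_mul_right ?_
    rw [mul_assoc]
    exact h1
  have he : e < 2 * (k + 1) := by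
    by_contra hcon
    push Not at hcon
    have h3 : (k + 3).choose 2 < 4 ^ (k + 1) := choose_two_lt k
    have h4 : 4 ^ (k + 1) ≤ p ^ e := by
      calc 4 ^ (k + 1) = 2 ^ (2 * (k + 1)) := by rw [pow_mul]; norm_num
        _ ≤ p ^ (2 * (k + 1)) := Nat.pow_le_pow_left hp.two_le _
        _ ≤ p ^ e := Nat.pow_le_pow_right hp.pos hcon
    have h5 : p ^ e ≤ (k + 3).choose 2 := by
      rw [hew]
      refine Nat.le_mul_of_pos_right _ (Nat.pos_of_ne_zero ?_)
      rintro rfl
      exact hw (dvd_zero p)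
    omega
  obtain ⟨d, hd⟩ : ∃ d, 2 * (k + 1) = e + 1 + d := ⟨2 * (k + 1) - (e + 1), by omega⟩
  rw [hd, pow_add, pow_add, pow_one, pow_succ]
  have : n.choose (k + 3) * (p ^ e * p * p ^ d) = (n.choose (k + 3) * p ^ e) * p * p ^ d := by ring
  rw [this]
  exact Dvd.dvd.mul_right (Nat.mul_dvd_mul_right h2 p) _

variable {R : Type*} [Ring R]

/-- `p ^ L` divides `r`. -/
def PDvd (p L : ℕ) (r : R) : Prop := ∃ t : R, r = (p : R) ^ L * t

theorem pcomm (p L : ℕ) (r : R) : r * (p : R) ^ L = (p : R) ^ L * r := by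
  rw [← Nat.cast_pow]
  exact (Nat.cast_commute (p ^ L) r).eq.symm

theorem PDvd.add {p L : ℕ} {r s : R} (hr : PDvd p L r) (hs : PDvd p L s) : PDvd p L (r + s) := by
  obtain ⟨a, rfl⟩ := hr
  obtain ⟨b, rfl⟩ := hs
  exact ⟨a + b, by rw [mul_add]⟩

theorem PDvd.neg {p L : ℕ} {r : R} (hr : PDvd p L r) : PDvd p L (-r) := by
  obtain ⟨a, rfl⟩ := hr
  exact ⟨-a, by rw [mul_neg]⟩

theorem PDvd.sub {p L : ℕ} {r s : R} (hr : PDvd p L r) (hs : PDvd p L s) : PDvd p L (r - s) := by
  rw [sub_eq_add_neg]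
  exact hr.add hs.neg

theorem PDvd.mul {p L M : ℕ} {r s : R} (hr : PDvd p L r) (hs : PDvd p M s) :
    PDvd p (L + M) (r * s) := by
  obtain ⟨a, rfl⟩ := hr
  obtain ⟨b, rfl⟩ := hs
  refine ⟨a * b, ?_⟩
  calc (p : R) ^ L * a * ((p : R) ^ M * b) = (p : R) ^ L * (a * (p : R) ^ M) * b := by
        simp only [mul_assoc]
    _ = (p : R) ^ L * ((p : R) ^ M * a) * b := by rw [pcomm]
    _ = (p : R) ^ (L + M) * (a * b) := by rw [pow_add]; simp only [mul_assoc]

theorem PDvd.mono {p L M : ℕ} {r : R} (h : M ≤ L) (hr : PDvd p L r) : PDvd p M r := by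
  obtain ⟨a, rfl⟩ := hr
  obtain ⟨d, rfl⟩ := Nat.exists_eq_add_of_le h
  exact ⟨(p : R) ^ d * a, by rw [pow_add, mul_assoc]⟩

theorem PDvd.zero_left (p : ℕ) (r : R) : PDvd p 0 r := ⟨r, by simp⟩

theorem PDvd.zero (p L : ℕ) : PDvd p L (0 : R) := ⟨0, by simp⟩

theorem PDvd.sum {p L : ℕ} {ι : Type*} (s : Finset ι) (f : ι → R) (h : ∀ i ∈ s, PDvd p L (f i)) :
    PDvd p L (∑ i ∈ s, f i) := by
  classical
  induction s using Finset.induction_on with
  | empty => simpa using PDvd.zero p L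
  | insert a s ha ih =>
    rw [Finset.sum_insert ha]
    exact (h a (Finset.mem_insert_self a s)).add
      (ih fun i hi => h i (Finset.mem_insert_of_mem hi))

theorem PDvd.pow {p L : ℕ} {r : R} (hr : PDvd p L r) (k : ℕ) : PDvd p (L * k) (r ^ k) := by
  induction k with
  | zero => simpa using PDvd.zero_left p (1 : R)
  | succ k ih =>
    rw [pow_succ, Nat.mul_succ]
    exact ih.mul hr

section main

variable {p : ℕ} {x y : R} {L : ℕ}

theorem pdvd_comm_pow (hx : PDvd p 2 x) (hy : PDvd p 2 y) (hc : PDvd p L (x * y - y * x)) (k : ℕ) :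
    PDvd p (L + 2 * k)
      (y * (x + y + x * y) ^ (k + 1) - (x + y + x * y) ^ (k + 1) * y) := by
  have hz : PDvd p 2 (x + y + x * y) :=
    (hx.add hy).add ((hx.mul hy).mono (by norm_num))
  have hyz : PDvd p L (y * (x + y + x * y) - (x + y + x * y) * y) := by
    have : y * (x + y + x * y) - (x + y + x * y) * y = -((x * y - y * x) * (1 + y)) := by
      noncomm_ring
    rw [this]
    have h := (hc.mul (PDvd.zero_left p (1 + y))).neg
    simpa using h
  induction k with
  | zero => simpa using hyz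
  | succ k ih =>
    set z := x + y + x * y with hzdef
    have : y * z ^ (k + 1 + 1) - z ^ (k + 1 + 1) * y =
        (y * z ^ (k + 1) - z ^ (k + 1) * y) * z + z ^ (k + 1) * (y * z - z * y) := by
      rw [pow_succ z (k + 1)]
      noncomm_ring
    rw [this]
    refine PDvd.add ?_ ?_
    · have := ih.mul hz
      exact this.mono (by omega)
    · have := (hz.pow (k + 1)).mul hyz
      exact this.mono (by omega)

theorem pdvd_psi {s : ℕ} {r : R} (hx : PDvd p 2 x) (hy : PDvd p 2 y) (hr : PDvd p s r) :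
    PDvd p (s + 2) (psi x y r) := by
  rw [psi_apply]
  refine ((?_ : PDvd p (s + 2) (x * r)).add ?_).add ?_
  · exact (hx.mul hr).mono (by omega)
  · exact (hr.mul hy).mono (by omega)
  · exact ((hx.mul hr).mul hy).mono (by omega)

theorem pdvd_coeffA (hx : PDvd p 2 x) (hy : PDvd p 2 y) (hc : PDvd p L (x * y - y * x)) (k : ℕ) :
    PDvd p (L + 2 * k) (coeffA x y (k + 2)) := by
  induction k with
  | zero =>
    rw [coeffA_two]
    have h := ((PDvd.zero_left p (1 + x)).mul hc.neg).mul (PDvd.zero_left p (1 + y))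
    simpa using h
  | succ k ih =>
    rw [show k + 1 + 2 = (k + 2) + 1 by ring, coeffA_succ]
    refine PDvd.add ?_ ?_
    · exact (pdvd_psi hx hy ih).mono (by omega)
    · have h := (PDvd.zero_left p (1 + x)).mul (pdvd_comm_pow hx hy hc (k + 1))
      exact h.mono (by omega)

/-- The main step. -/
theorem pdvd_step (hp : p.Prime) (htor : ∀ r : R, (p : R) * r = 0 → r = 0)
    (hx : PDvd p 2 x) (hy : PDvd p 2 y) (hc : PDvd p L (x * y - y * x))
    (hP : ∃ n : ℕ, 2 ≤ n ∧ ((1 + x) * (1 + y)) ^ n = (1 + x) ^ n * (1 + y) ^ n) :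
    PDvd p (L + 1) (x * y - y * x) := by
  obtain ⟨n, hn, hP⟩ := hP
  have htor' : ∀ (v : ℕ) (r : R), (p : R) ^ v * r = 0 → r = 0 := by
    intro v
    induction v with
    | zero => intro r hr; simpa using hr
    | succ v ih =>
      intro r hr
      rw [pow_succ', mul_assoc] at hr
      exact ih r (htor _ hr)
  have hN := newton x y n
  rw [hP, sub_self] at hN
  obtain ⟨m, rfl⟩ : ∃ m, n = m + 2 := ⟨n - 2, by omega⟩
  rw [show m + 2 + 1 = (m + 1) + 1 + 1 by ring, Finset.sum_range_succ', Finset.sum_range_succ',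
    Finset.sum_range_succ'] at hN
  simp only [coeffA_zero, coeffA_one, smul_zero, add_zero, zero_add] at hN
  -- the valuation of `choose n 2`
  obtain ⟨v, w, hw, hvw⟩ := Nat.exists_eq_pow_mul_and_not_dvd (n := (m + 2).choose 2)
    (Nat.choose_pos (by omega)).ne' p hp.ne_one
  have hdvd : p ^ v ∣ (m + 2).choose 2 := ⟨w, hvw⟩
  -- each higher term is divisible by `p ^ (v + (L + 1))`
  have hterm : ∀ k ∈ Finset.range m, PDvd p (v + (L + 1))
      ((m + 2).choose (k + 1 + 1 + 1) • coeffA x y (k + 1 + 1 + 1)) := by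
    intro k _
    obtain ⟨B, hB⟩ := pdvd_coeffA hx hy hc (k + 1)
    obtain ⟨c, hc'⟩ := dvd_choose p hp (m + 2) v k hdvd
    refine ⟨(c : R) * B, ?_⟩
    rw [show k + 1 + 1 + 1 = k + 1 + 2 by ring, hB, nsmul_eq_mul]
    have h1 : ((m + 2).choose (k + 1 + 2) : R) * (p : R) ^ (2 * (k + 1)) =
        (p : R) ^ (v + 1) * (c : R) := by
      exact_mod_cast congrArg (Nat.cast : ℕ → R) hc'
    calc ((m + 2).choose (k + 1 + 2) : R) * ((p : R) ^ (L + 2 * (k + 1)) * B)
        = (((m + 2).choose (k + 1 + 2) : R) * (p : R) ^ (2 * (k + 1))) * ((p : R) ^ L * B) := by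
          rw [add_comm L, pow_add]; simp only [mul_assoc]
      _ = (p : R) ^ (v + 1) * (c : R) * ((p : R) ^ L * B) := by rw [h1]
      _ = (p : R) ^ (v + 1) * ((c : R) * (p : R) ^ L) * B := by simp only [mul_assoc]
      _ = (p : R) ^ (v + 1) * ((p : R) ^ L * (c : R)) * B := by rw [pcomm]
      _ = (p : R) ^ (v + (L + 1)) * ((c : R) * B) := by
          rw [show v + (L + 1) = (v + 1) + L by ring, pow_add (p : R) (v + 1) L]
          simp only [mul_assoc]
  obtain ⟨T, hT⟩ := PDvd.sum _ _ hterm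
  rw [hT] at hN
  -- cancel `p ^ v`
  have hA2 : (w : R) * coeffA x y 2 = - ((p : R) ^ (L + 1) * T) := by
    have h2 : (p : R) ^ v * ((w : R) * coeffA x y 2 + (p : R) ^ (L + 1) * T) = 0 := by
      rw [mul_add, ← mul_assoc, ← mul_assoc, ← pow_add]
      have h3 : (p : R) ^ v * (w : R) = (((m + 2).choose 2 : ℕ) : R) := by
        rw [hvw]; push_cast; rfl
      rw [h3, ← nsmul_eq_mul, add_comm]
      exact hN.symm
    exact eq_neg_of_add_eq_zero_left (htor' v _ h2)
  -- Bezout
  have hcop : IsCoprime (w : ℤ) ((p ^ (L + 1) : ℕ) : ℤ) := by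
    rw [Nat.isCoprime_iff_coprime]
    exact (Nat.Coprime.pow_left _ ((Nat.Prime.coprime_iff_not_dvd hp).2 hw)).symm
  obtain ⟨α, β, hαβ⟩ := hcop
  have hA2' : PDvd p (L + 1) (coeffA x y 2) := by
    refine ⟨-((α : R) * T) + (β : R) * coeffA x y 2, ?_⟩
    have h1 : ((α * (w : ℤ) + β * ((p ^ (L + 1) : ℕ) : ℤ) : ℤ) : R) = 1 := by
      rw [hαβ]; simp
    have h2 : coeffA x y 2 = ((α : R) * (w : R) + (β : R) * (p : R) ^ (L + 1)) * coeffA x y 2 := by
      have : ((α : R) * (w : R) + (β : R) * (p : R) ^ (L + 1)) = 1 := by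
        rw [← h1]; push_cast; rfl
      rw [this, one_mul]
    calc coeffA x y 2
        = ((α : R) * (w : R) + (β : R) * (p : R) ^ (L + 1)) * coeffA x y 2 := h2
      _ = (α : R) * ((w : R) * coeffA x y 2) + ((β : R) * (p : R) ^ (L + 1)) * coeffA x y 2 := by
          rw [add_mul, mul_assoc]
      _ = (α : R) * (-((p : R) ^ (L + 1) * T)) + ((p : R) ^ (L + 1) * (β : R)) * coeffA x y 2 := by
          rw [hA2, pcomm]
      _ = - (((α : R) * (p : R) ^ (L + 1)) * T) + (p : R) ^ (L + 1) * ((β : R) * coeffA x y 2) := by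
          rw [mul_neg]; simp only [mul_assoc]
      _ = - (((p : R) ^ (L + 1) * (α : R)) * T) + (p : R) ^ (L + 1) * ((β : R) * coeffA x y 2) := by
          rw [pcomm]
      _ = (p : R) ^ (L + 1) * (-((α : R) * T) + (β : R) * coeffA x y 2) := by
          rw [mul_add, mul_neg]; simp only [mul_assoc]
  rw [coeffA_two] at hA2'
  -- remove the unipotent factors
  have hfin : x * y - y * x = -((1 + x) * (y * x - x * y) * (1 + y)) -
      (x * (x * y - y * x) + (x * y - y * x) * y + x * (x * y - y * x) * y) := by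
    noncomm_ring
  rw [hfin]
  refine hA2'.neg.sub (((?_ : PDvd p (L + 1) _).add ?_).add ?_)
  · exact (hx.mul hc).mono (by omega)
  · exact (hc.mul hy).mono (by omega)
  · exact ((hx.mul hc).mul hy).mono (by omega)

end main

/-- In a ring with `1`, without `p`-torsion: if (P) holds for the pair `1 + p ^ 2 * a`,
`1 + p ^ 2 * b`, then the commutator of `a` and `b` is divisible by all powers of `p`. -/
theorem commutator_pdvd {p : ℕ} (hp : p.Prime) (htor : ∀ r : R, (p : R) * r = 0 → r = 0)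
    (a b : R)
    (hP : ∃ n : ℕ, 2 ≤ n ∧ ((1 + (p : R) ^ 2 * a) * (1 + (p : R) ^ 2 * b)) ^ n =
      (1 + (p : R) ^ 2 * a) ^ n * (1 + (p : R) ^ 2 * b) ^ n) (L : ℕ) :
    PDvd p L (a * b - b * a) := by
  have key : ∀ M : ℕ, PDvd p M
      (((p : R) ^ 2 * a) * ((p : R) ^ 2 * b) - ((p : R) ^ 2 * b) * ((p : R) ^ 2 * a)) := by
    intro M
    induction M with
    | zero => exact PDvd.zero_left p _
    | succ M ih => exact pdvd_step hp htor ⟨a, rfl⟩ ⟨b, rfl⟩ ih hP
  obtain ⟨t, ht⟩ := key (4 + L)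
  refine ⟨t, ?_⟩
  have htor' : ∀ (v : ℕ) (r : R), (p : R) ^ v * r = 0 → r = 0 := by
    intro v
    induction v with
    | zero => intro r hr; simpa using hr
    | succ v ih =>
      intro r hr
      rw [pow_succ', mul_assoc] at hr
      exact ih r (htor _ hr)
  have h1 : ((p : R) ^ 2 * a) * ((p : R) ^ 2 * b) - ((p : R) ^ 2 * b) * ((p : R) ^ 2 * a) =
      (p : R) ^ 4 * (a * b - b * a) := by
    have e1 : ∀ c d : R, ((p : R) ^ 2 * c) * ((p : R) ^ 2 * d) = (p : R) ^ 4 * (c * d) := by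
      intro c d
      calc ((p : R) ^ 2 * c) * ((p : R) ^ 2 * d) = (p : R) ^ 2 * (c * (p : R) ^ 2) * d := by
            simp only [mul_assoc]
        _ = (p : R) ^ 2 * ((p : R) ^ 2 * c) * d := by rw [pcomm]
        _ = (p : R) ^ 4 * (c * d) := by
            rw [show (4 : ℕ) = 2 + 2 by norm_num, pow_add]; simp only [mul_assoc]
    rw [e1, e1, mul_sub]
  have h2 : (p : R) ^ 4 * ((a * b - b * a) - (p : R) ^ L * t) = 0 := by
    rw [mul_sub, ← h1, ht, ← mul_assoc, ← pow_add, sub_self]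
  exact sub_eq_zero.1 (htor' 4 _ h2)

end Pool.Agent.Lib.MP_5dc4fa_al
end

section

/-!
Condition (P) for `1 + x`, `1 + y` in characteristic `p`: nilpotency of inner derivations on leading
forms.
-/

namespace Pool.Agent.Lib.MP_5dc4fa_al.DV

open Pool.Agent.Lib.MP_5dc4fa_al.Alg

set_option linter.unusedSectionVars false

variable {R : Type*} [Ring R] (D : DFilt R)

namespace DFilt

/-- Commutators raise degrees by `s`. -/
def HS (s : ℤ) : Prop := ∀ {m n : ℤ} {a b : R}, a ∈ D.F m → b ∈ D.F n → a * b - b * a ∈ D.F (m + n + s)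

variable {D} {s : ℤ}

theorem HS.ad_mem (hS : D.HS s) {x r : R} {i m : ℤ} (hx : x ∈ D.F i) (hr : r ∈ D.F m) :
    ad x r ∈ D.F (m + (i + s)) := by
  rw [ad_apply]
  exact D.le (by omega) (hS hx hr)

theorem HS.ad_pow_mem (hS : D.HS s) {x r : R} {i m : ℤ} (hx : x ∈ D.F i) (hr : r ∈ D.F m) (l : ℕ) :
    (ad x ^ l) r ∈ D.F (l * (i + s) + m) := by
  induction l with
  | zero => simpa using hr
  | succ l ih =>
    rw [ad_pow_succ]
    have := hS.ad_mem hx ih
    exact D.le (by push_cast; linarith [add_mul (l : ℤ) 1 (i + s)]) this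

theorem HS.expand (hS : D.HS s) {x w : R} {i j : ℤ} (hx : x ∈ D.F i) (hw : w ∈ D.F j)
    (hij : i + s ≤ j) (m : ℕ) :
    ((ad x + mL w) ^ (m + 1)) 1 - (ad x ^ m) w ∈ D.F ((m - 1) * (i + s) + 2 * j) := by
  induction m with
  | zero =>
    have : ((ad x + mL w) ^ (0 + 1)) 1 - (ad x ^ 0) w = 0 := by
      rw [zero_add, pow_one, pow_zero]
      change (x * 1 - 1 * x + w * 1) - w = 0
      noncomm_ring
    rw [this]
    exact D.zero _
  | succ m ih =>
    set T := ((ad x + mL w) ^ (m + 1)) 1 with hT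
    set V := (ad x ^ m) w with hV
    have hVm : V ∈ D.F (m * (i + s) + j) := hS.ad_pow_mem hx hw m
    have e1 : ((ad x + mL w) ^ (m + 1 + 1)) 1 = ad x T + w * T := by
      rw [pow_succ', hT]; rfl
    have e2 : (ad x ^ (m + 1)) w = ad x V := ad_pow_succ x m w
    have e3 : ad x T + w * T - ad x V = ad x (T - V) + w * (T - V) + w * V := by
      rw [map_sub]; noncomm_ring
    rw [e1, e2, e3]
    refine AddSubgroup.add_mem _ (AddSubgroup.add_mem _ ?_ ?_) ?_
    · have := hS.ad_mem hx ih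
      exact D.le (by push_cast; linarith [add_mul (m : ℤ) 1 (i + s)]) this
    · exact D.mul' hw ih (by push_cast; nlinarith)
    · exact D.mul' hw hVm (by push_cast; nlinarith)

theorem HS.starBC (hS : D.HS s) (hs : 0 ≤ s) (p : ℕ) [Fact p.Prime] [CharP R p] {x y w : R}
    {i j : ℤ} (hi : 1 ≤ i) (hx : x ∈ D.F i) (hy : y ∈ D.F j) (hw : w ∈ D.F j) (hij : i + s < j)
    {k m : ℕ} (hk : 1 ≤ k) (hm : ¬ p ∣ m)
    (h : (1 + (x + w)) ^ (p ^ k * m) = (1 + x) ^ (p ^ k * m) * (1 + y) ^ (p ^ k * m)) :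
    (ad x ^ (p ^ k - 1)) w ∈ D.F ((p ^ k - 1 : ℕ) * (i + s) + j + 1) := by
  set q := p ^ k with hq
  have hq2 : 2 ≤ q := by
    have h1 : p ^ 1 ≤ p ^ k := Nat.pow_le_pow_right (Fact.out : p.Prime).pos hk
    rw [pow_one] at h1
    exact (Fact.out : p.Prime).two_le.trans h1
  have hj : 1 ≤ j := by omega
  have hone : ∀ z : R, (1 + z) ^ q = 1 + z ^ q := by
    intro z
    rw [hq, add_pow_char_pow_of_commute (p := p) k (Commute.one_left z), one_pow]
  have hU1 : ∀ z : R, ∀ n : ℤ, 1 ≤ n → z ∈ D.F n → D.U1 (1 + z) := by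
    intro z n hn hz
    change (1 + z) - 1 ∈ D.F 1
    rw [add_sub_cancel_left]
    exact D.le hn hz
  have hxq : x ^ q ∈ D.F (q * i) := D.pow_mem hx q
  have hyq : y ^ q ∈ D.F (q * j) := D.pow_mem hy q
  have hxw : x + w ∈ D.F i := AddSubgroup.add_mem _ hx (D.le (by omega) hw)
  have hqi : (1 : ℤ) ≤ q * i := by nlinarith
  have hqj : (1 : ℤ) ≤ q * j := by nlinarith
  have hZq : (x + w) ^ q ∈ D.F (q * i) := D.pow_mem hxw q
  have h1 := D.caseBC p (U := 1 + x ^ q) (W := 1 + y ^ q) (Z := 1 + (x + w) ^ q) (m := m)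
    (hU1 _ _ hqi hxq) (hU1 _ _ hqj hyq) (hU1 _ _ hqi hZq) hm (by
      rw [← hone, ← hone, ← hone, ← pow_mul, ← pow_mul, ← pow_mul]
      exact h) (N := q * i + q * j) (by
      have : (1 + x ^ q) * (1 + y ^ q) - (1 + y ^ q) * (1 + x ^ q) = x ^ q * y ^ q - y ^ q * x ^ q := by
        noncomm_ring
      rw [this]
      exact D.le (by omega) (hS hxq hyq))
  -- the expansion of the `q`-th power
  obtain ⟨r, hr⟩ : ∃ r, q = r + 1 := ⟨q - 1, by omega⟩
  have h2 := hS.expand hx hw hij.le r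
  have h3 : (x + w) ^ q = x ^ q + ((ad x + mL w) ^ q) 1 := by
    rw [hq]; exact add_pow_char_ad p x w k
  rw [← hr] at h2
  have h4 : ((ad x + mL w) ^ q) 1 ∈ D.F (q * j) := by
    have : ((ad x + mL w) ^ q) 1 = (1 + (x + w) ^ q - (1 + x ^ q) * (1 + y ^ q)) + y ^ q +
        x ^ q * y ^ q := by
      rw [h3]; noncomm_ring
    rw [this]
    exact AddSubgroup.add_mem _ (AddSubgroup.add_mem _ (D.le (by nlinarith) h1) hyq)
      (D.mul' hxq hyq (by linarith))
  have h5 : q - 1 = r := by omega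
  have hqr : (q : ℤ) = r + 1 := by rw [hr]; push_cast; ring
  rw [h5]
  have h6 : (ad x ^ r) w = ((ad x + mL w) ^ q) 1 - (((ad x + mL w) ^ q) 1 - (ad x ^ r) w) := by abel
  rw [h6]
  have hr1 : 1 ≤ (r : ℤ) := by omega
  refine AddSubgroup.sub_mem _ (D.le ?_ h4) (D.le ?_ h2)
  · rw [hqr]; nlinarith
  · nlinarith

/-- The key consequence of (P) in characteristic `p`. -/
theorem HS.star (hS : D.HS s) (hs : 0 ≤ s) (p : ℕ) [Fact p.Prime] [CharP R p] (hP : PP R) {x y : R}
    {i j : ℤ} (hi : 1 ≤ i) (hx : x ∈ D.F i) (hy : y ∈ D.F j) (hij : i + s < j) :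
    ∃ k : ℕ, 1 ≤ k ∧ (ad x ^ (p ^ k - 1)) y ∈ D.F ((p ^ k - 1 : ℕ) * (i + s) + j + 1) := by
  obtain ⟨n, hn, h⟩ := hP (1 + x) (1 + y)
  have hp2 := (Fact.out : p.Prime).two_le
  have hU1 : ∀ z : R, ∀ n : ℤ, 1 ≤ n → z ∈ D.F n → D.U1 (1 + z) := by
    intro z n hn hz
    change (1 + z) - 1 ∈ D.F 1
    rw [add_sub_cancel_left]
    exact D.le hn hz
  have hux := hU1 x i hi hx
  have huy := hU1 y j (by omega) hy
  have hadp : ∀ l : ℕ, (ad x ^ l) y ∈ D.F (l * (i + s) + j) := fun l => hS.ad_pow_mem hx hy l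
  by_cases hA : p ∣ n.choose 2
  · have h2 : p ∣ n * (n - 1) := by
      have h3 : n.choose 2 * 2 = n * (n - 1) := by
        rw [Nat.choose_two_right]
        exact Nat.div_mul_cancel (Nat.even_mul_pred_self n).two_dvd
      rw [← h3]
      exact Dvd.dvd.mul_right hA 2
    rcases ((Fact.out : p.Prime).dvd_mul).1 h2 with h3 | h3
    · -- case B
      obtain ⟨k, m, hm, hkm⟩ := Nat.exists_eq_pow_mul_and_not_dvd (n := n) (by omega) p (by omega)
      have hk : 1 ≤ k := by
        rcases Nat.eq_zero_or_pos k with rfl | h4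
        · rw [pow_zero, one_mul] at hkm
          exact absurd (hkm ▸ h3) hm
        · exact h4
      refine ⟨k, hk, ?_⟩
      have hw : y + x * y ∈ D.F j := AddSubgroup.add_mem _ hy (D.mul' hx hy (by omega))
      have h5 := hS.starBC hs p hi hx hy hw hij hk hm (by
        rw [← hkm, ← h]; congr 1; noncomm_ring)
      rw [map_add, ad_pow_left x x rfl] at h5
      have h6 : (ad x ^ (p ^ k - 1)) y = ((ad x ^ (p ^ k - 1)) y + x * (ad x ^ (p ^ k - 1)) y) -
          x * (ad x ^ (p ^ k - 1)) y := by abel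
      rw [h6]
      exact AddSubgroup.sub_mem _ h5 (D.mul' hx (hadp _) (by omega))
    · -- case C
      obtain ⟨k, m, hm, hkm⟩ := Nat.exists_eq_pow_mul_and_not_dvd (n := n - 1) (by omega) p (by omega)
      have hk : 1 ≤ k := by
        rcases Nat.eq_zero_or_pos k with rfl | h4
        · rw [pow_zero, one_mul] at hkm
          exact absurd (hkm ▸ h3) hm
        · exact h4
      refine ⟨k, hk, ?_⟩
      have hw : y + y * x ∈ D.F j := AddSubgroup.add_mem _ hy (D.mul' hy hx (by omega))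
      have hcan : ((1 + y) * (1 + x)) ^ (n - 1) = (1 + x) ^ (n - 1) * (1 + y) ^ (n - 1) := by
        obtain ⟨l, hl⟩ : ∃ l, n = l + 1 := ⟨n - 1, by omega⟩
        have e1 : n - 1 = l := by omega
        rw [e1]
        rw [hl, pow_succ ((1 + x) * (1 + y)), ← mul_assoc, mul_pow_mul, pow_succ' (1 + x),
          pow_succ (1 + y)] at h
        have h7 : (1 + x) * (((1 + y) * (1 + x)) ^ l - (1 + x) ^ l * (1 + y) ^ l) * (1 + y) = 0 := by
          rw [mul_sub, sub_mul, h]; noncomm_ring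
        by_contra hne
        exact D.mul_ne_zero (D.mul_ne_zero (U1.ne_zero D hux) (sub_ne_zero.2 hne))
          (U1.ne_zero D huy) h7
      have h5 := hS.starBC hs p hi hx hy hw hij hk hm (by
        rw [← hkm, ← hcan]; congr 1; noncomm_ring)
      rw [map_add, ad_pow_right x x rfl] at h5
      have h6 : (ad x ^ (p ^ k - 1)) y = ((ad x ^ (p ^ k - 1)) y + (ad x ^ (p ^ k - 1)) y * x) -
          (ad x ^ (p ^ k - 1)) y * x := by abel
      rw [h6]
      exact AddSubgroup.sub_mem _ h5 (D.mul' (hadp _) hx (by omega))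
  · -- case A
    have h1 := D.caseA p hux huy hA h
    have h2 : ad x y = 0 := by
      rw [ad_apply, ← h1]; noncomm_ring
    refine ⟨1, le_rfl, ?_⟩
    rw [pow_one]
    obtain ⟨r, hr⟩ : ∃ r, p - 1 = r + 1 := ⟨p - 2, by omega⟩
    rw [hr, ad_pow_succ', h2, map_zero]
    exact D.zero _

end DFilt

end Pool.Agent.Lib.MP_5dc4fa_al.DV
end

section

/-!
A ring of prime characteristic with (P) and a discrete valuation is commutative.
-/

namespace Pool.Agent.Lib.MP_5dc4fa_al.DV

open Pool.Agent.Lib.MP_5dc4fa_al.Alg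

set_option linter.unusedSectionVars false

variable {R : Type*} [Ring R] {D : DFilt R} {s : ℤ}

namespace DFilt

theorem HS.star_mono (hS : D.HS s) {x y : R} {i j : ℤ} (hx : x ∈ D.F i) {l : ℕ}
    (h : (ad x ^ l) y ∈ D.F (l * (i + s) + j + 1)) {m : ℕ} (hm : l ≤ m) :
    (ad x ^ m) y ∈ D.F (m * (i + s) + j + 1) := by
  obtain ⟨r, rfl⟩ := Nat.exists_eq_add_of_le hm
  rw [add_comm l r, ad_pow_add]
  exact D.le (by push_cast; nlinarith) (hS.ad_pow_mem hx h r)

theorem HS.star_all (hS : D.HS s) (hs : 0 ≤ s) (p : ℕ) [Fact p.Prime] [CharP R p] (hP : PP R)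
    {x y : R} {i j : ℤ} (hi : 1 ≤ i) (hx : x ∈ D.F i) (hy : y ∈ D.F j) :
    ∃ l : ℕ, 1 ≤ l ∧ (ad x ^ l) y ∈ D.F (l * (i + s) + j + 1) := by
  by_cases hx' : x ∈ D.F (i + 1)
  · refine ⟨1, le_rfl, ?_⟩
    rw [pow_one]
    exact D.le (by push_cast; omega) (hS.ad_mem hx' hy)
  · let N : ℕ := (i + s - j).toNat + 1
    have hN : i + s < N * i + j := by
      have h1 : i + s - j < (N : ℤ) := by
        have := Int.self_le_toNat (i + s - j)
        simp only [N]; push_cast; omega
      nlinarith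
    have hxN := D.pow_mem hx N
    have hy' : x ^ N * y ∈ D.F (N * i + j) := D.mul hxN hy
    obtain ⟨k, hk, h⟩ := hS.star hs p hP hi hx hy' hN
    have hp2 := (Fact.out : p.Prime).two_le
    have hq : 2 ≤ p ^ k := by
      have h1 : p ^ 1 ≤ p ^ k := Nat.pow_le_pow_right (by omega) hk
      rw [pow_one] at h1
      omega
    refine ⟨p ^ k - 1, by omega, ?_⟩
    rw [ad_pow_left x (x ^ N) ((Commute.refl x).pow_right N)] at h
    refine D.cancel_left hxN (D.exact_pow hx hx' N) ?_
    exact D.le (by linarith) h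

/-- The final contradiction. -/
theorem HS.final (hS : D.HS s) (hs : 0 ≤ s) (p : ℕ) [Fact p.Prime] [CharP R p] (hP : PP R)
    {x y : R} {i j : ℤ} (hi : 1 ≤ i) (hj : 1 ≤ j) (hx : x ∈ D.F i) (hy : y ∈ D.F j)
    (hg : x * y - y * x ∉ D.F (i + j + s + 1))
    (hgy : (x * y - y * x) * y - y * (x * y - y * x) ∈ D.F (i + j + s + j + s + 1)) : False := by
  set g := x * y - y * x with hgdef
  set γ : ℤ := i + j + s with hγ
  have hgγ : g ∈ D.F γ := hS hx hy
  have hγ1 : 1 ≤ γ := by omega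
  have hy' : y ∉ D.F (j + 1) := fun h => hg (by
    have := hS hx h
    exact D.le (by omega) this)
  obtain ⟨lx, _, hlx⟩ := hS.star_all hs p hP hγ1 hgγ hx
  obtain ⟨ly, _, hly⟩ := hS.star_all hs p hP hγ1 hgγ hy
  have hp1 := (Fact.out : p.Prime).one_lt
  obtain ⟨k, hk⟩ : ∃ k, lx + ly + 1 ≤ p ^ k := ⟨lx + ly + 1, (Nat.lt_pow_self hp1).le⟩
  set q := p ^ k with hq
  have hGx : g ^ q * x - x * g ^ q ∈ D.F (q * γ + i + s + 1) := by
    have h1 := hS.star_mono hgγ hlx (m := q) (by omega)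
    rw [hq, ad_pow_char p g k x] at h1
    exact D.le (by rw [← hq]; nlinarith [show (1 : ℤ) ≤ q by omega]) h1
  have hGy : g ^ q * y - y * g ^ q ∈ D.F (q * γ + j + s + 1) := by
    have h1 := hS.star_mono hgγ hly (m := q) (by omega)
    rw [hq, ad_pow_char p g k y] at h1
    exact D.le (by rw [← hq]; nlinarith [show (1 : ℤ) ≤ q by omega]) h1
  obtain ⟨r, hr⟩ : ∃ r, q = r + 1 := ⟨q - 1, by omega⟩
  have hqr : (q : ℤ) = r + 1 := by rw [hr]; push_cast; ring
  set G := g ^ q with hG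
  have hGF : G ∈ D.F (q * γ) := D.pow_mem hgγ q
  have hgr : g ^ r ∈ D.F (r * γ) := D.pow_mem hgγ r
  -- the element `X = x y g^(q-1)`
  set X := x * y * g ^ r with hX
  set ξ : ℤ := i + j + r * γ with hξ
  have hXF : X ∈ D.F ξ := D.mul' (D.mul hx hy) hgr (by omega)
  have hξs : ξ + s = q * γ := by rw [hξ, hqr, hγ]; ring
  have hξ1 : 1 ≤ ξ := by
    have : 0 ≤ (r : ℤ) * γ := by positivity
    omega
  have hgry : g ^ r * y - y * g ^ r ∈ D.F (r * γ + j + s + 1) := by
    have key : ∀ n : ℕ, g ^ n * y - y * g ^ n ∈ D.F (n * γ + j + s + 1) := by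
      intro n
      induction n with
      | zero => rw [pow_zero, one_mul, mul_one, sub_self]; exact D.zero _
      | succ n ih =>
        have e : g ^ (n + 1) * y - y * g ^ (n + 1) = g * (g ^ n * y - y * g ^ n) +
            (g * y - y * g) * g ^ n := by rw [pow_succ']; noncomm_ring
        rw [e]
        refine AddSubgroup.add_mem _ (D.mul' hgγ ih (by push_cast; linarith)) ?_
        exact D.mul' hgy (D.pow_mem hgγ n) (by push_cast; linarith)
    exact key r
  have hE1 : X * y - y * X - G * y ∈ D.F (q * γ + j + 1) := by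
    have e : X * y - y * X - G * y = x * y * (g ^ r * y - y * g ^ r) -
        g * (g ^ r * y - y * g ^ r) := by
      have e1 : G = g * g ^ r := by rw [hG, hr, pow_succ']
      have e2 : y * x = x * y - g := by rw [hgdef]; abel
      have e3 : y * X = (x * y - g) * y * g ^ r := by
        rw [hX, ← e2]; simp only [mul_assoc]
      rw [e1, e3, hX]
      noncomm_ring
    rw [e]
    refine AddSubgroup.sub_mem _ (D.mul' (D.mul hx hy) hgry ?_) (D.mul' hgγ hgry ?_)
    · rw [hqr, hγ]; linarith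
    · rw [hqr]; linarith
  have hE2 : X * G - G * X ∈ D.F (ξ + q * γ + s + 1) := by
    have e : X * G - G * X = -((G * x - x * G) * (y * g ^ r)) - x * ((G * y - y * G) * g ^ r) := by
      have e1 : g ^ r * G = G * g ^ r := by rw [hG, ← pow_add, ← pow_add, add_comm]
      have e2 : X * G = x * y * (G * g ^ r) := by rw [hX, mul_assoc (x * y), e1]
      rw [e2, hX]
      noncomm_ring
    rw [e]
    refine AddSubgroup.sub_mem _ (AddSubgroup.neg_mem _ (D.mul' hGx (D.mul hy hgr) ?_))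
      (D.mul' hx (D.mul hGy hgr) ?_)
    · rw [hξ]; linarith
    · rw [hξ]; linarith
  have hE3 : ∀ l : ℕ, X * G ^ l - G ^ l * X ∈ D.F (ξ + l * (q * γ) + s + 1) := by
    intro l
    induction l with
    | zero => rw [pow_zero, one_mul, mul_one, sub_self]; exact D.zero _
    | succ l ih =>
      have e : X * G ^ (l + 1) - G ^ (l + 1) * X = (X * G ^ l - G ^ l * X) * G +
          G ^ l * (X * G - G * X) := by rw [pow_succ]; noncomm_ring
      rw [e]
      refine AddSubgroup.add_mem _ (D.mul' ih hGF (by push_cast; linarith))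
        (D.mul' (D.pow_mem hGF l) hE2 (by push_cast; linarith))
  have hT : ∀ l : ℕ, (ad X ^ l) y - G ^ l * y ∈ D.F (l * (q * γ) + j + 1) := by
    intro l
    induction l with
    | zero => rw [pow_zero, pow_zero, one_mul]; change y - y ∈ _; rw [sub_self]; exact D.zero _
    | succ l ih =>
      set T := (ad X ^ l) y with hTdef
      have e : (ad X ^ (l + 1)) y - G ^ (l + 1) * y = ad X (T - G ^ l * y) +
          (X * G ^ l - G ^ l * X) * y + G ^ l * (X * y - y * X - G * y) := by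
        rw [ad_pow_succ, ← hTdef, map_sub, ad_apply X (G ^ l * y), pow_succ]
        noncomm_ring
      rw [e]
      refine AddSubgroup.add_mem _ (AddSubgroup.add_mem _ ?_ ?_) ?_
      · exact D.le (by push_cast; linarith) (hS.ad_mem hXF ih)
      · exact D.mul' (hE3 l) hy (by push_cast; linarith)
      · exact D.mul' (D.pow_mem hGF l) hE1 (by push_cast; linarith)
  obtain ⟨l, hl, h⟩ := hS.star_all hs p hP hξ1 hXF hy
  rw [hξs] at h
  have h1 : G ^ l * y ∈ D.F (l * (q * γ) + j + 1) := by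
    have e : G ^ l * y = (ad X ^ l) y - ((ad X ^ l) y - G ^ l * y) := by abel
    rw [e]
    exact AddSubgroup.sub_mem _ h (hT l)
  have hGe : G ∉ D.F (q * γ + 1) := D.exact_pow hgγ hg q
  exact D.exact_mul (D.pow_mem hGF l) (D.exact_pow hGF hGe l) hy hy' h1

/-- Positive elements commute up to higher order. -/
theorem HS.pos (hS : D.HS s) (hs : 0 ≤ s) (p : ℕ) [Fact p.Prime] [CharP R p] (hP : PP R)
    {x y : R} {i j : ℤ} (hi : 1 ≤ i) (hj : 1 ≤ j) (hx : x ∈ D.F i) (hy : y ∈ D.F j) :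
    x * y - y * x ∈ D.F (i + j + s + 1) := by
  classical
  by_contra hg
  obtain ⟨l1, _, hl1⟩ := hS.star_all hs p hP hj hy hx
  have hex : ∃ l : ℕ, (ad y ^ l) x ∈ D.F (l * (j + s) + i + 1) := ⟨l1, hl1⟩
  set l := Nat.find hex with hl
  have hlP := Nat.find_spec hex
  rw [← hl] at hlP
  have hlmin : ∀ m < l, (ad y ^ m) x ∉ D.F (m * (j + s) + i + 1) := fun m hm =>
    Nat.find_min hex hm
  have hl0 : l ≠ 0 := by
    intro h0
    rw [h0] at hlP
    have h1 : x ∈ D.F (i + 1) := by simpa using hlP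
    exact hg (D.le (by omega) (hS h1 hy))
  have hl1' : l ≠ 1 := by
    intro h0
    rw [h0, pow_one] at hlP
    apply hg
    have e : x * y - y * x = - ad y x := by rw [ad_apply]; abel
    rw [e]
    exact AddSubgroup.neg_mem _ (D.le (by push_cast; omega) hlP)
  obtain ⟨t, ht⟩ : ∃ t, l = t + 2 := ⟨l - 2, by omega⟩
  set x' := (ad y ^ t) x with hx'
  have hx'F : x' ∈ D.F (t * (j + s) + i) := hS.ad_pow_mem hy hx t
  have e1 : x' * y - y * x' = - (ad y ^ (t + 1)) x := by
    rw [ad_pow_succ, ← hx', ad_apply]; abel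
  have e2 : (x' * y - y * x') * y - y * (x' * y - y * x') = (ad y ^ (t + 2)) x := by
    rw [ad_pow_succ, ad_pow_succ, ← hx', ad_apply, ad_apply]; noncomm_ring
  have hts : 0 ≤ (t : ℤ) * (j + s) := mul_nonneg (by positivity) (by omega)
  refine hS.final hs p hP (i := t * (j + s) + i) (j := j) (by omega) hj hx'F hy ?_ ?_
  · rw [e1]
    intro h
    refine hlmin (t + 1) (by omega) ?_
    have h2 := AddSubgroup.neg_mem _ h
    rw [neg_neg] at h2
    exact D.le (by push_cast; linarith) h2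
  · rw [e2, ← ht]
    exact D.le (by rw [ht]; push_cast; linarith) hlP

theorem HS.succ (hS : D.HS s) (hs : 0 ≤ s) (p : ℕ) [Fact p.Prime] [CharP R p] (hP : PP R)
    {z : R} {d : ℤ} (hd : 1 ≤ d) (hz : z ∈ D.F d) (hz' : z ∉ D.F (d + 1)) : D.HS (s + 1) := by
  have alpha : ∀ {m j : ℤ} {r t : R}, 1 ≤ j → r ∈ D.F m → t ∈ D.F j →
      r * t - t * r ∈ D.F (m + j + s + 1) := by
    intro m j r t hj hr ht
    let N : ℕ := (1 - m).toNat + 1
    have hN : 1 ≤ N * d + m := by
      have h1 : 1 - m ≤ (N : ℤ) := by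
        have := Int.self_le_toNat (1 - m)
        simp only [N]; push_cast; omega
      nlinarith
    have hN' : 1 ≤ N * d := by
      have : (1 : ℤ) ≤ N := by simp only [N]; push_cast; omega
      nlinarith
    have hzN := D.pow_mem hz N
    have h1 := hS.pos hs p hP hN hj (D.mul hzN hr) ht
    have h2 := hS.pos hs p hP hN' hj hzN ht
    refine D.cancel_left hzN (D.exact_pow hz hz' N) ?_
    have e : z ^ N * (r * t - t * r) = (z ^ N * r * t - t * (z ^ N * r)) -
        (z ^ N * t - t * z ^ N) * r := by noncomm_ring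
    rw [e]
    exact AddSubgroup.sub_mem _ (D.le (by linarith) h1) (D.mul' h2 hr (by linarith))
  intro m n a b ha hb
  let M : ℕ := (1 - n).toNat + 1
  have hM : 1 ≤ M * d + n := by
    have h1 : 1 - n ≤ (M : ℤ) := by
      have := Int.self_le_toNat (1 - n)
      simp only [M]; push_cast; omega
    nlinarith
  have hM' : 1 ≤ M * d := by
    have : (1 : ℤ) ≤ M := by simp only [M]; push_cast; omega
    nlinarith
  have hzM := D.pow_mem hz M
  have h1 := alpha hM ha (D.mul hzM hb)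
  have h2 := alpha hM' ha hzM
  refine D.cancel_left hzM (D.exact_pow hz hz' M) ?_
  have e : z ^ M * (a * b - b * a) = (a * (z ^ M * b) - z ^ M * b * a) -
      (a * z ^ M - z ^ M * a) * b := by noncomm_ring
  rw [e]
  exact AddSubgroup.sub_mem _ (D.le (by linarith) h1) (D.mul' h2 hb (by linarith))

/-- A ring of prime characteristic with (P) and a discrete valuation which is positive on some
nonzero element is commutative. -/
theorem comm_of_charP (D : DFilt R) (p : ℕ) [Fact p.Prime] [CharP R p] (hP : PP R) {z : R} {d : ℤ}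
    (hd : 1 ≤ d) (hz : z ∈ D.F d) (hz' : z ∉ D.F (d + 1)) (a b : R) : a * b = b * a := by
  have key : ∀ s : ℕ, D.HS s := by
    intro s
    induction s with
    | zero =>
      intro m n a b ha hb
      exact AddSubgroup.sub_mem _ (D.mul' ha hb (by simp)) (D.mul' hb ha (by push_cast; omega))
    | succ s ih =>
      intro m n a b ha hb
      have := ih.succ (by positivity) p hP hd hz hz' ha hb
      exact D.le (by push_cast; omega) this
  rw [← sub_eq_zero]
  refine D.sep _ fun n => ?_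
  obtain ⟨m1, h1⟩ := D.exh a
  obtain ⟨m2, h2⟩ := D.exh b
  have := key (n - m1 - m2).toNat h1 h2
  exact D.le (by have := Int.self_le_toNat (n - m1 - m2); omega) this

end DFilt

end Pool.Agent.Lib.MP_5dc4fa_al.DV
end

section

/-!
A ring with (P) and a discrete valuation which is positive somewhere is commutative: all
characteristics.
-/

namespace Pool.Agent.Lib.MP_5dc4fa_al.DV

open Pool.Agent.Lib.MP_5dc4fa_al.Alg

set_option linter.unusedSectionVars false

variable {R : Type*} [Ring R] (D : DFilt R)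

namespace DFilt

/-- If elements of positive degree commute, then all elements commute. -/
theorem comm_of_pos {z : R} {d : ℤ} (hd : 1 ≤ d) (hz : z ∈ D.F d) (hz' : z ∉ D.F (d + 1))
    (h : ∀ (i j : ℤ) (x y : R), 1 ≤ i → 1 ≤ j → x ∈ D.F i → y ∈ D.F j → x * y = y * x)
    (a b : R) : a * b = b * a := by
  have hz0 : z ≠ 0 := by rintro rfl; exact hz' (D.zero _)
  have hzN : ∀ N : ℕ, z ^ N ≠ 0 := by
    intro N
    induction N with
    | zero =>
      rw [pow_zero]
      intro h1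
      exact D.one' (by rw [h1]; exact D.zero _)
    | succ N ih => rw [pow_succ]; exact D.mul_ne_zero ih hz0
  have hbig : ∀ r : R, ∃ N : ℕ, 1 ≤ N ∧ z ^ N * r ∈ D.F 1 := by
    intro r
    obtain ⟨m, hm⟩ := D.exh r
    let N : ℕ := (1 - m).toNat + 1
    have hN : 1 ≤ N * d + m := by
      have h1 : 1 - m ≤ (N : ℤ) := by
        have := Int.self_le_toNat (1 - m)
        simp only [N]; push_cast; omega
      nlinarith
    exact ⟨N, by simp [N], D.mul' (D.pow_mem hz N) hm hN⟩
  have hcan : ∀ (N : ℕ) (w : R), z ^ N * w = 0 → w = 0 := by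
    intro N w hw
    by_contra hne
    exact D.mul_ne_zero (hzN N) hne hw
  have hzpos : ∀ N : ℕ, 1 ≤ N → z ^ N ∈ D.F 1 := fun N hN =>
    D.le (by nlinarith [show (1 : ℤ) ≤ N by omega]) (D.pow_mem hz N)
  have alpha : ∀ (r t : R), t ∈ D.F 1 → r * t = t * r := by
    intro r t ht
    obtain ⟨N, hN, hr⟩ := hbig r
    rw [← sub_eq_zero]
    refine hcan N _ ?_
    have e : z ^ N * (r * t - t * r) = (z ^ N * r * t - t * (z ^ N * r)) -
        (z ^ N * t - t * z ^ N) * r := by noncomm_ring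
    rw [e, h 1 1 _ _ le_rfl le_rfl hr ht, h 1 1 _ _ le_rfl le_rfl (hzpos N hN) ht]
    simp
  obtain ⟨N, hN, hb⟩ := hbig b
  rw [← sub_eq_zero]
  refine hcan N _ ?_
  have e : z ^ N * (a * b - b * a) = (a * (z ^ N * b) - z ^ N * b * a) -
      (a * z ^ N - z ^ N * a) * b := by noncomm_ring
  rw [e, alpha a _ hb, alpha a _ (hzpos N hN)]
  simp

/-- Residue characteristic zero. -/
theorem comm_residue_zero (hP : PP R) (h0 : ∀ n : ℕ, n ≠ 0 → (n : R) ∉ D.F 1) (i j : ℤ) (x y : R)
    (hi : 1 ≤ i) (hj : 1 ≤ j) (hx : x ∈ D.F i) (hy : y ∈ D.F j) : x * y = y * x := by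
  obtain ⟨n, hn, h⟩ := hP (1 + x) (1 + y)
  have hu : D.U1 (1 + x) := by
    change (1 + x) - 1 ∈ D.F 1
    rw [add_sub_cancel_left]
    exact D.le hi hx
  have hw : D.U1 (1 + y) := by
    change (1 + y) - 1 ∈ D.F 1
    rw [add_sub_cancel_left]
    exact D.le hj hy
  have hc : (1 + x) * (1 + y) - (1 + y) * (1 + x) = x * y - y * x := by noncomm_ring
  have hnat : ∀ m : ℕ, (m : R) ∈ D.F 0 := by
    intro m
    have := AddSubgroup.nsmul_mem _ D.one m
    rwa [nsmul_one] at this
  have hch : n.choose 2 ≠ 0 := (Nat.choose_pos hn).ne'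
  rw [← sub_eq_zero, ← hc]
  refine D.sep _ fun N => ?_
  have key : ∀ k : ℕ, (1 + x) * (1 + y) - (1 + y) * (1 + x) ∈ D.F k := by
    intro k
    induction k with
    | zero =>
      exact AddSubgroup.sub_mem _ (D.mul' hu.mem hw.mem (by simp)) (D.mul' hw.mem hu.mem (by simp))
    | succ k ih =>
      have h1 := D.mul_pow_sub_one hu hw ih n
      rw [h, sub_self, zero_sub] at h1
      have h2 := AddSubgroup.neg_mem _ h1
      rw [neg_neg, nsmul_eq_mul] at h2
      refine D.cancel_left (hnat (n.choose 2)) (h0 _ hch) (n := ((k + 1 : ℕ) : ℤ)) ?_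
      exact D.le (by push_cast; omega) h2
  exact D.le (Int.self_le_toNat N) (key N.toNat)

/-- The subring of elements of nonnegative degree. -/
def V : Subring R where
  carrier := D.F 0
  mul_mem' := fun ha hb => D.mul' ha hb (by simp)
  one_mem' := D.one
  add_mem' := fun ha hb => AddSubgroup.add_mem _ ha hb
  zero_mem' := D.zero 0
  neg_mem' := fun ha => AddSubgroup.neg_mem _ ha

/-- Mixed characteristic. -/
theorem comm_mixed (hP : PP R) {p : ℕ} (hp : p.Prime) (hp1 : (p : R) ∈ D.F 1) (hp0 : (p : R) ≠ 0)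
    (x y : R) (hx : x ∈ D.F 0) (hy : y ∈ D.F 0) : x * y = y * x := by
  have hPV : PP D.V := hP.comap D.V.subtype.toMonoidHom Subtype.val_injective
  have htor : ∀ r : D.V, (p : D.V) * r = 0 → r = 0 := by
    intro r hr
    have h1 : (p : R) * (r : R) = 0 := by
      have := congrArg Subtype.val hr
      simpa using this
    by_contra hne
    exact D.mul_ne_zero hp0 (fun h => hne (Subtype.ext h)) h1
  rw [← sub_eq_zero]
  refine D.sep _ fun N => ?_
  obtain ⟨t, ht⟩ := commutator_pdvd hp htor (⟨x, hx⟩ : D.V) (⟨y, hy⟩ : D.V) (hPV _ _) N.toNat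
  have h1 : x * y - y * x = (p : R) ^ N.toNat * (t : R) := by
    have := congrArg Subtype.val ht
    simpa using this
  rw [h1]
  have h2 := D.pow_mem hp1 N.toNat
  exact D.mul' h2 (show (t : R) ∈ D.F 0 from t.2) (by
    have := Int.self_le_toNat N
    linarith)

/-- A ring with (P) and a discrete valuation which is positive on some nonzero element is
commutative. -/
theorem comm_of_dfilt (hP : PP R) {z : R} {d : ℤ} (hd : 1 ≤ d) (hz : z ∈ D.F d)
    (hz' : z ∉ D.F (d + 1)) (a b : R) : a * b = b * a := by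
  by_cases h0 : ∀ n : ℕ, n ≠ 0 → (n : R) ∉ D.F 1
  · exact D.comm_of_pos hd hz hz' (D.comm_residue_zero hP h0) a b
  · push Not at h0
    obtain ⟨n, hn0, hn⟩ := h0
    have hnat : ∀ m : ℕ, (m : R) ∈ D.F 0 := by
      intro m
      have := AddSubgroup.nsmul_mem _ D.one m
      rwa [nsmul_one] at this
    have key : ∀ n : ℕ, n ≠ 0 → (n : R) ∈ D.F 1 → ∃ p : ℕ, p.Prime ∧ (p : R) ∈ D.F 1 := by
      intro n
      induction n using Nat.strong_induction_on with
      | _ n ih =>
        intro hn0 hn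
        have hn1 : n ≠ 1 := by
          rintro rfl
          exact D.one' (by simpa using hn)
        obtain ⟨p, hp, m, rfl⟩ := Nat.exists_prime_and_dvd hn1
        by_cases hpF : (p : R) ∈ D.F 1
        · exact ⟨p, hp, hpF⟩
        · have hm0 : m ≠ 0 := by rintro rfl; simp at hn0
          refine ih m ?_ hm0 ?_
          · have := hp.two_le
            have : 0 < m := Nat.pos_of_ne_zero hm0
            nlinarith
          · rw [Nat.cast_mul] at hn
            exact D.cancel_left (m := 0) (hnat p) (by simpa using hpF) (by simpa using hn)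
    obtain ⟨p, hp, hpF⟩ := key n hn0 hn
    by_cases hp0 : (p : R) = 0
    · have : Fact p.Prime := ⟨hp⟩
      have hnt : Nontrivial R := ⟨⟨1, 0, by
        intro h
        exact D.one' (by rw [h]; exact D.zero _)⟩⟩
      have : CharP R p := (CharP.charP_iff_prime_eq_zero hp).2 hp0
      exact D.comm_of_charP p hP hd hz hz' a b
    · refine D.comm_of_pos hd hz hz' ?_ a b
      intro i j x y hi hj hx hy
      exact D.comm_mixed hP hp hpF hp0 x y (D.le (by omega) hx) (D.le (by omega) hy)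

end DFilt

end Pool.Agent.Lib.MP_5dc4fa_al.DV
end

section

/-!
From filtrations with reduced associated graded ring to filtrations with a domain as associated
graded ring.
-/

namespace Pool.Agent.Lib.MP_5dc4fa_al.DV

open Pool.Agent.Lib.MP_5dc4fa_al.Alg

set_option linter.unusedSectionVars false

section monoid

variable {P : Type*} [Monoid P] (Z : Set P) (hl : ∀ a b, a ∈ Z → b * a ∈ Z)
  (hr : ∀ a b, a ∈ Z → a * b ∈ Z) (hsq : ∀ a, a * a ∈ Z → a ∈ Z)

include hl hr hsq

theorem z_swap {a b : P} (h : a * b ∈ Z) : b * a ∈ Z := by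
  refine hsq _ ?_
  have e : b * a * (b * a) = b * (a * b) * a := by simp only [mul_assoc]
  rw [e]
  exact hr _ _ (hl _ _ h)

theorem z_insert {a b : P} (h : a * b ∈ Z) (t : P) : a * t * b ∈ Z := by
  refine hsq _ ?_
  have e : a * t * b * (a * t * b) = a * t * (b * a) * (t * b) := by simp only [mul_assoc]
  rw [e]
  exact hr _ _ (hl _ _ (z_swap Z hl hr hsq h))

theorem z_pow {c : P} (hc : c ∉ Z) (k : ℕ) : c ^ k ∉ Z := by
  intro h
  have h1 : ∀ j : ℕ, c ^ (2 ^ j) ∉ Z := by
    intro j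
    induction j with
    | zero => simpa using hc
    | succ j ih =>
      intro h
      refine ih (hsq _ ?_)
      rwa [← pow_add, ← two_mul, ← pow_succ']
  have h2 : k ≤ 2 ^ k := Nat.lt_two_pow_self.le
  obtain ⟨r, hr'⟩ := Nat.exists_eq_add_of_le h2
  refine h1 k ?_
  rw [hr', pow_add]
  exact hr _ _ h

/-- A maximal submonoid disjoint from `Z`. -/
theorem exists_maximal {c : P} (hc : c ∉ Z) : ∃ T : Submonoid P, c ∈ T ∧ (∀ t ∈ T, t ∉ Z) ∧
    ∀ h, h ∉ T → ∃ t ∈ T, h * t ∈ Z := by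
  classical
  let S : Set (Submonoid P) := {T | ∀ t ∈ T, t ∉ Z}
  have hS0 : Submonoid.powers c ∈ S := by
    rintro t ⟨k, rfl⟩
    exact z_pow Z hl hr hsq hc k
  obtain ⟨T, hT0, hTmax⟩ := zorn_le_nonempty₀ S (by
    intro C hCS hC y hy
    refine ⟨sSup C, ?_, fun z hz => le_sSup hz⟩
    intro t ht
    rw [Submonoid.mem_sSup_of_directedOn ⟨y, hy⟩ hC.directedOn] at ht
    obtain ⟨U, hU, htU⟩ := ht
    exact hCS hU t htU) _ hS0
  refine ⟨T, hT0 (Submonoid.mem_powers c), hTmax.prop, ?_⟩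
  intro h hh
  -- the submonoid generated by `T` and `h` meets `Z`
  have h1 : ∃ w ∈ Submonoid.closure ((T : Set P) ∪ {h}), w ∈ Z := by
    by_contra hcon
    push Not at hcon
    have h2 := hTmax.le_of_ge (y := Submonoid.closure ((T : Set P) ∪ {h})) hcon
      (fun t ht => Submonoid.subset_closure (Or.inl ht))
    exact hh (h2 (Submonoid.subset_closure (Or.inr rfl)))
  obtain ⟨w, hw, hwZ⟩ := h1
  have key : ∀ w ∈ Submonoid.closure ((T : Set P) ∪ {h}), ∃ t ∈ T, ∀ a b, a * w * b ∈ Z →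
      a * (h * t) * b ∈ Z := by
    intro w hw
    induction hw using Submonoid.closure_induction with
    | mem w hw =>
      rcases hw with hw | hw
      · refine ⟨w, hw, fun a b hab => ?_⟩
        have e : a * (h * w) * b = a * h * (w * b) := by simp only [mul_assoc]
        rw [e]
        exact z_insert Z hl hr hsq (by rwa [mul_assoc] at hab) h
      · rw [Set.mem_singleton_iff] at hw
        refine ⟨1, T.one_mem, fun a b hab => ?_⟩
        rwa [mul_one, ← hw]
    | one =>
      refine ⟨1, T.one_mem, fun a b hab => ?_⟩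
      rw [mul_one] at hab
      rw [mul_one]
      exact z_insert Z hl hr hsq hab h
    | mul w₁ w₂ _ _ h₁ h₂ =>
      obtain ⟨t₁, ht₁, h₁⟩ := h₁
      obtain ⟨t₂, ht₂, h₂⟩ := h₂
      refine ⟨t₁ * t₂, T.mul_mem ht₁ ht₂, fun a b hab => ?_⟩
      have h3 : a * (h * t₁) * (w₂ * b) ∈ Z := h₁ a (w₂ * b) (by
        have e : a * w₁ * (w₂ * b) = a * (w₁ * w₂) * b := by simp only [mul_assoc]
        rwa [e])
      have h4 : a * (h * t₁) * (h * t₂) * b ∈ Z := h₂ (a * (h * t₁)) b (by
        have e : a * (h * t₁) * w₂ * b = a * (h * t₁) * (w₂ * b) := by simp only [mul_assoc]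
        rwa [e])
      refine hsq _ ?_
      -- insert the missing factors
      have e1 : a * (h * t₁) * (h * t₂) * b = (a * h * t₁) * (h * t₂ * b) := by
        simp only [mul_assoc]
      rw [e1] at h4
      have h5 := z_insert Z hl hr hsq h4 (t₂ * b * a)
      have e2 : a * h * t₁ * (t₂ * b * a) * (h * t₂ * b) =
          (a * h * t₁ * (t₂ * b * a) * h) * (t₂ * b) := by simp only [mul_assoc]
      rw [e2] at h5
      have h6 := z_insert Z hl hr hsq h5 t₁
      have e3 : a * h * t₁ * (t₂ * b * a) * h * t₁ * (t₂ * b) =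
          a * (h * (t₁ * t₂)) * b * (a * (h * (t₁ * t₂)) * b) := by simp only [mul_assoc]
      rwa [e3] at h6
  obtain ⟨t, ht, h2⟩ := key w hw
  refine ⟨t, ht, ?_⟩
  have h3 := h2 1 1 (by rwa [one_mul, mul_one])
  rwa [one_mul, mul_one] at h3

end monoid

/-- A separated exhaustive filtration with reduced associated graded ring. -/
structure RFilt (R : Type*) [Ring R] where
  F : ℤ → AddSubgroup R
  anti : ∀ {m n : ℤ}, m ≤ n → F n ≤ F m
  mul : ∀ {m n : ℤ} {x y : R}, x ∈ F m → y ∈ F n → x * y ∈ F (m + n)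
  one : (1 : R) ∈ F 0
  sep : ∀ x : R, (∀ n, x ∈ F n) → x = 0
  exh : ∀ x : R, ∃ n, x ∈ F n
  red : ∀ {m : ℤ} {x : R}, x ∈ F m → x * x ∈ F (2 * m + 1) → x ∈ F (m + 1)

namespace RFilt

variable {R : Type*} [Ring R] (D : RFilt R)

theorem le {m n : ℤ} (h : m ≤ n) {x : R} (hx : x ∈ D.F n) : x ∈ D.F m := D.anti h hx

theorem mul' {m n k : ℤ} {x y : R} (hx : x ∈ D.F m) (hy : y ∈ D.F n) (h : k ≤ m + n) :
    x * y ∈ D.F k := D.anti h (D.mul hx hy)

theorem zero (n : ℤ) : (0 : R) ∈ D.F n := AddSubgroup.zero_mem _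

theorem exists_exact {x : R} (hx : x ≠ 0) : ∃ m, x ∈ D.F m ∧ x ∉ D.F (m + 1) := by
  by_contra h
  push Not at h
  refine hx (D.sep x fun n => ?_)
  obtain ⟨k, hk⟩ := D.exh x
  rcases le_total n k with h1 | h1
  · exact D.le h1 hk
  · induction n, h1 using Int.leInduction with
    | base => exact hk
    | succ n hn ih => exact h n ih

theorem pow_two_pow {m : ℤ} {x : R} (hx : x ∈ D.F m) (hx' : x ∉ D.F (m + 1)) (j : ℕ) :
    x ^ (2 ^ j) ∈ D.F (2 ^ j * m) ∧ x ^ (2 ^ j) ∉ D.F (2 ^ j * m + 1) := by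
  induction j with
  | zero => simpa using ⟨hx, hx'⟩
  | succ j ih =>
    have e : x ^ (2 ^ (j + 1)) = x ^ (2 ^ j) * x ^ (2 ^ j) := by
      rw [← pow_add, ← two_mul, ← pow_succ']
    rw [e]
    refine ⟨D.mul' ih.1 ih.1 (by rw [pow_succ]; linarith), fun h => ih.2 (D.red ih.1 ?_)⟩
    exact D.le (by rw [pow_succ]; linarith) h

/-- The power trick. -/
theorem mem_of_pow {x : R} {M C : ℤ} (h : ∀ k : ℕ, x ^ (k + 1) ∈ D.F (k * M + C)) : x ∈ D.F M := by
  by_cases hx0 : x = 0
  · rw [hx0]; exact D.zero _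
  obtain ⟨m, hm, hm'⟩ := D.exists_exact hx0
  by_contra hx
  have hmM : m + 1 ≤ M := by
    by_contra hlt
    exact hx (D.le (by omega) hm)
  -- choose `j` with `2 ^ j > M - C`
  let j : ℕ := (M - C).toNat + 1
  have hj : M - C < 2 ^ j := by
    have h1 : (M - C).toNat + 1 < 2 ^ ((M - C).toNat + 1) := Nat.lt_two_pow_self
    have h2 := Int.self_le_toNat (M - C)
    have h3 : (((M - C).toNat + 1 : ℕ) : ℤ) < ((2 ^ ((M - C).toNat + 1) : ℕ) : ℤ) := by
      exact_mod_cast h1
    push_cast at h3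
    simp only [j]
    omega
  have h1 := (D.pow_two_pow hm hm' j).2
  have h2 := h (2 ^ j - 1)
  have h3 : 2 ^ j - 1 + 1 = 2 ^ j := Nat.sub_add_cancel Nat.one_le_two_pow
  rw [h3] at h2
  refine h1 (D.le ?_ h2)
  have h4 : ((2 ^ j - 1 : ℕ) : ℤ) = 2 ^ j - 1 := by
    rw [Nat.cast_sub Nat.one_le_two_pow]; push_cast; ring
  rw [h4]
  nlinarith

theorem pow_mem {m : ℤ} {x : R} (hx : x ∈ D.F m) (n : ℕ) : x ^ n ∈ D.F (n * m) := by
  induction n with
  | zero => simpa using D.one
  | succ n ih =>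
    rw [pow_succ]
    exact D.mul' ih hx (by push_cast; linarith [add_mul (n : ℤ) 1 m])

theorem swap {r t : R} {N : ℤ} (h : r * t ∈ D.F N) : t * r ∈ D.F N := by
  obtain ⟨a, ha⟩ := D.exh r
  obtain ⟨b, hb⟩ := D.exh t
  refine D.mem_of_pow (C := a + b) fun k => ?_
  have e : (t * r) ^ (k + 1) = t * (r * t) ^ k * r := by
    rw [pow_succ, ← mul_assoc, mul_pow_mul]
  rw [e]
  exact D.mul' (D.mul hb (D.pow_mem h k)) ha (by linarith)

theorem insert {r t u : R} {N k : ℤ} (h : r * t ∈ D.F N) (hu : u ∈ D.F k) :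
    r * u * t ∈ D.F (N + k) := by
  obtain ⟨a, ha⟩ := D.exh r
  obtain ⟨b, hb⟩ := D.exh t
  have h1 : t * r * u ∈ D.F (N + k) := D.mul (D.swap h) hu
  refine D.mem_of_pow (C := a + k + b) fun n => ?_
  have e : (r * u * t) ^ (n + 1) = r * u * (t * r * u) ^ n * t := by
    have e1 : r * u * t = (r * u) * t := rfl
    have e2 : t * r * u = t * (r * u) := by rw [mul_assoc]
    rw [e2, pow_succ, ← mul_assoc, mul_pow_mul]
  rw [e]
  exact D.mul' (D.mul (D.mul ha hu) (D.pow_mem h1 n)) hb (by linarith)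

end RFilt

end Pool.Agent.Lib.MP_5dc4fa_al.DV
end

section

/-!
A ring with (P) and a separated filtration whose associated graded ring is reduced and whose part
of positive degree has zero annihilator is commutative.
-/

namespace Pool.Agent.Lib.MP_5dc4fa_al.DV

open Pool.Agent.Lib.MP_5dc4fa_al.Alg

set_option linter.unusedSectionVars false

namespace RFilt

variable {R : Type*} [Ring R] (D : RFilt R)

/-- Elements together with a lower bound for their degree. -/
def P : Submonoid (R × Multiplicative ℤ) where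
  carrier := {q | q.1 ∈ D.F q.2.toAdd}
  mul_mem' := by
    rintro ⟨x, m⟩ ⟨y, n⟩ hx hy
    exact D.mul hx hy
  one_mem' := D.one

/-- The pairs whose leading form is zero. -/
def Z : Set D.P := {q | q.1.1 ∈ D.F (q.1.2.toAdd + 1)}

theorem Z_left (a b : D.P) (h : a ∈ D.Z) : b * a ∈ D.Z := by
  change b.1.1 * a.1.1 ∈ D.F (b.1.2.toAdd + a.1.2.toAdd + 1)
  exact D.mul' b.2 h (by omega)

theorem Z_right (a b : D.P) (h : a ∈ D.Z) : a * b ∈ D.Z := by
  change a.1.1 * b.1.1 ∈ D.F (a.1.2.toAdd + b.1.2.toAdd + 1)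
  exact D.mul' h b.2 (by omega)

theorem Z_sq (a : D.P) (h : a * a ∈ D.Z) : a ∈ D.Z := by
  change a.1.1 * a.1.1 ∈ D.F (a.1.2.toAdd + a.1.2.toAdd + 1) at h
  exact D.red a.2 (by rwa [two_mul])

variable (T : Submonoid D.P) (hTZ : ∀ t ∈ T, t ∉ D.Z) (hT : ∀ h, h ∉ T → ∃ t ∈ T, h * t ∈ D.Z)

/-- The new filtration. -/
def F' (n : ℤ) : AddSubgroup R where
  carrier := {r | ∃ t ∈ T, r * t.1.1 ∈ D.F (n + t.1.2.toAdd)}
  add_mem' := by
    rintro r s ⟨t, ht, hr⟩ ⟨u, hu, hs⟩
    refine ⟨t * u, T.mul_mem ht hu, ?_⟩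
    change (r + s) * (t.1.1 * u.1.1) ∈ D.F (n + (t.1.2.toAdd + u.1.2.toAdd))
    have h1 : r * t.1.1 * u.1.1 ∈ D.F (n + t.1.2.toAdd + u.1.2.toAdd) := D.mul hr u.2
    have h2 : s * t.1.1 * u.1.1 ∈ D.F (n + u.1.2.toAdd + t.1.2.toAdd) := D.insert hs t.2
    have e : (r + s) * (t.1.1 * u.1.1) = r * t.1.1 * u.1.1 + s * t.1.1 * u.1.1 := by
      noncomm_ring
    rw [e]
    exact AddSubgroup.add_mem _ (D.le (by omega) h1) (D.le (by omega) h2)
  zero_mem' := ⟨1, T.one_mem, by rw [zero_mul]; exact D.zero _⟩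
  neg_mem' := by
    rintro r ⟨t, ht, hr⟩
    exact ⟨t, ht, by rw [neg_mul]; exact AddSubgroup.neg_mem _ hr⟩

theorem mem_F' {n : ℤ} {r : R} : r ∈ D.F' T n ↔ ∃ t ∈ T, r * t.1.1 ∈ D.F (n + t.1.2.toAdd) :=
  Iff.rfl

theorem F'_anti {m n : ℤ} (h : m ≤ n) : D.F' T n ≤ D.F' T m := by
  rintro r ⟨t, ht, hr⟩
  exact ⟨t, ht, D.le (by omega) hr⟩

theorem F_le_F' (n : ℤ) : D.F n ≤ D.F' T n := by
  intro r hr
  refine ⟨1, T.one_mem, ?_⟩
  change r * 1 ∈ D.F (n + 0)
  rwa [mul_one, add_zero]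

theorem F'_mul {m n : ℤ} {r s : R} (hr : r ∈ D.F' T m) (hs : s ∈ D.F' T n) :
    r * s ∈ D.F' T (m + n) := by
  obtain ⟨t, ht, hr⟩ := hr
  obtain ⟨u, hu, hs⟩ := hs
  refine ⟨u * t, T.mul_mem hu ht, ?_⟩
  change r * s * (u.1.1 * t.1.1) ∈ D.F (m + n + (u.1.2.toAdd + t.1.2.toAdd))
  have h1 : r * (s * u.1.1) * t.1.1 ∈ D.F (m + t.1.2.toAdd + (n + u.1.2.toAdd)) :=
    D.insert hr hs
  have e : r * s * (u.1.1 * t.1.1) = r * (s * u.1.1) * t.1.1 := by simp only [mul_assoc]
  rw [e]
  exact D.le (by omega) h1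

include hTZ

theorem notMem_F' {t : D.P} (ht : t ∈ T) : t.1.1 ∉ D.F' T (t.1.2.toAdd + 1) := by
  rintro ⟨u, hu, h⟩
  refine hTZ _ (T.mul_mem ht hu) ?_
  change t.1.1 * u.1.1 ∈ D.F (t.1.2.toAdd + u.1.2.toAdd + 1)
  exact D.le (by omega) h

include hT

theorem F'_dom {m n : ℤ} {r s : R} (hr : r ∈ D.F' T m) (hs : s ∈ D.F' T n)
    (h : r * s ∈ D.F' T (m + n + 1)) : r ∈ D.F' T (m + 1) ∨ s ∈ D.F' T (n + 1) := by
  by_contra hcon
  push Not at hcon
  obtain ⟨t, ht, hr⟩ := hr
  obtain ⟨u, hu, hs⟩ := hs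
  obtain ⟨v, hv, h⟩ := h
  -- `r t ∈ T` and `s u ∈ T`
  let rt : D.P := ⟨(r * t.1.1, Multiplicative.ofAdd (m + t.1.2.toAdd)), hr⟩
  let su : D.P := ⟨(s * u.1.1, Multiplicative.ofAdd (n + u.1.2.toAdd)), hs⟩
  have hrt : rt ∈ T := by
    by_contra hne
    obtain ⟨w, hw, hz⟩ := hT _ hne
    refine hcon.1 ⟨t * w, T.mul_mem ht hw, ?_⟩
    change r * (t.1.1 * w.1.1) ∈ D.F (m + 1 + (t.1.2.toAdd + w.1.2.toAdd))
    have h1 : r * t.1.1 * w.1.1 ∈ D.F (m + t.1.2.toAdd + w.1.2.toAdd + 1) := hz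
    rw [← mul_assoc]
    exact D.le (by omega) h1
  have hsu : su ∈ T := by
    by_contra hne
    obtain ⟨w, hw, hz⟩ := hT _ hne
    refine hcon.2 ⟨u * w, T.mul_mem hu hw, ?_⟩
    change s * (u.1.1 * w.1.1) ∈ D.F (n + 1 + (u.1.2.toAdd + w.1.2.toAdd))
    have h1 : s * u.1.1 * w.1.1 ∈ D.F (n + u.1.2.toAdd + w.1.2.toAdd + 1) := hz
    rw [← mul_assoc]
    exact D.le (by omega) h1
  refine hTZ _ (T.mul_mem (T.mul_mem hrt hsu) hv) ?_
  change r * t.1.1 * (s * u.1.1) * v.1.1 ∈
    D.F (m + t.1.2.toAdd + (n + u.1.2.toAdd) + v.1.2.toAdd + 1)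
  have h1 : r * (s * v.1.1) ∈ D.F (m + n + 1 + v.1.2.toAdd) := by rwa [← mul_assoc]
  have h2 := D.insert h1 t.2
  have h3 : r * t.1.1 * s * v.1.1 ∈ D.F (m + n + 1 + v.1.2.toAdd + t.1.2.toAdd) := by
    rw [mul_assoc (r * t.1.1) s]; exact h2
  have h4 := D.insert h3 u.2
  have e : r * t.1.1 * (s * u.1.1) * v.1.1 = r * t.1.1 * s * u.1.1 * v.1.1 := by
    simp only [mul_assoc]
  rw [e]
  exact D.le (by omega) h4

end RFilt

/-- The theorem for reduced associated graded rings. -/
theorem comm_of_reduced {R : Type*} [Ring R] (D : RFilt R) (hP : PP R)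
    (hpos : ∀ (m : ℤ) (x : R), x ∈ D.F m → x ∉ D.F (m + 1) →
      ∃ (d : ℤ) (z : R), 1 ≤ d ∧ z ∈ D.F d ∧ z * x ∉ D.F (d + m + 1)) (a b : R) :
    a * b = b * a := by
  by_contra hab
  set c := a * b - b * a with hc
  have hc0 : c ≠ 0 := sub_ne_zero.2 hab
  obtain ⟨m, hcm, hcm'⟩ := D.exists_exact hc0
  obtain ⟨d, z, hd, hz, hzc⟩ := hpos m c hcm hcm'
  -- a maximal multiplicative system containing `z * c`
  let zc : D.P := ⟨(z * c, Multiplicative.ofAdd (d + m)), D.mul hz hcm⟩
  have hzcZ : zc ∉ D.Z := hzc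
  obtain ⟨T, hzcT, hTZ, hT⟩ := exists_maximal D.Z D.Z_left D.Z_right D.Z_sq hzcZ
  let zP : D.P := ⟨(z, Multiplicative.ofAdd d), hz⟩
  let cP : D.P := ⟨(c, Multiplicative.ofAdd m), hcm⟩
  have hzcmul : zc = zP * cP := rfl
  have hzT : zP ∈ T := by
    by_contra hne
    obtain ⟨t, ht, h⟩ := hT _ hne
    refine hTZ _ (T.mul_mem hzcT ht) ?_
    rw [hzcmul]
    exact z_insert D.Z D.Z_left D.Z_right D.Z_sq h cP
  have hcT : cP ∈ T := by
    by_contra hne
    obtain ⟨t, ht, h⟩ := hT _ hne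
    refine hTZ _ (T.mul_mem hzcT ht) ?_
    rw [hzcmul, mul_assoc]
    exact D.Z_left _ _ h
  -- the quotient
  let I : Ideal R :=
    { carrier := {r | ∀ n, r ∈ D.F' T n}
      add_mem' := fun hr hs n => AddSubgroup.add_mem _ (hr n) (hs n)
      zero_mem' := fun n => AddSubgroup.zero_mem _
      smul_mem' := by
        intro r s hs n
        obtain ⟨k, hk⟩ := D.exh r
        have := D.F'_mul T (D.F_le_F' T k hk) (hs (n - k))
        exact D.F'_anti T (by omega) this }
  have hI : I.IsTwoSided := ⟨by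
    intro s r hs n
    obtain ⟨k, hk⟩ := D.exh r
    have := D.F'_mul T (hs (n - k)) (D.F_le_F' T k hk)
    exact D.F'_anti T (by omega) this⟩
  let π : R →+* R ⧸ I := Ideal.Quotient.mk I
  have hπs : Function.Surjective π := Ideal.Quotient.mk_surjective
  have hπ0 : ∀ r, π r = 0 ↔ ∀ n, r ∈ D.F' T n := fun r => Ideal.Quotient.eq_zero_iff_mem
  let G : ℤ → AddSubgroup (R ⧸ I) := fun n => (D.F' T n).map π.toAddMonoidHom
  have hG : ∀ n r, π r ∈ G n ↔ r ∈ D.F' T n := by
    intro n r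
    constructor
    · rintro ⟨s, hs, hsr⟩
      have h1 : π (s - r) = 0 := by
        rw [map_sub]
        exact sub_eq_zero.2 hsr
      have h2 := (hπ0 _).1 h1 n
      have : r = s - (s - r) := by abel
      rw [this]
      exact AddSubgroup.sub_mem _ hs h2
    · intro hr
      exact ⟨r, hr, rfl⟩
  let D' : DFilt (R ⧸ I) :=
    { F := G
      anti := by
        rintro m n h _ ⟨r, hr, rfl⟩
        exact ⟨r, D.F'_anti T h hr, rfl⟩
      mul := by
        rintro m n _ _ ⟨r, hr, rfl⟩ ⟨s, hs, rfl⟩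
        exact ⟨r * s, D.F'_mul T hr hs, map_mul π r s⟩
      one := ⟨1, D.F_le_F' T 0 D.one, map_one π⟩
      one' := by
        rw [← map_one π, hG]
        have := D.notMem_F' T hTZ T.one_mem
        exact this
      sep := by
        intro x hx
        obtain ⟨r, rfl⟩ := hπs x
        rw [hπ0]
        exact fun n => (hG n r).1 (hx n)
      exh := by
        intro x
        obtain ⟨r, rfl⟩ := hπs x
        obtain ⟨n, hn⟩ := D.exh r
        exact ⟨n, (hG n r).2 (D.F_le_F' T n hn)⟩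
      dom := by
        intro m n x y hx hy hxy
        obtain ⟨r, rfl⟩ := hπs x
        obtain ⟨s, rfl⟩ := hπs y
        rw [← map_mul, hG] at hxy
        rw [hG] at hx hy
        rw [hG, hG]
        exact D.F'_dom T hTZ hT hx hy hxy }
  have hPQ : PP (R ⧸ I) := hP.map π.toMonoidHom hπs
  have hz1 : π z ∈ D'.F d := (hG d z).2 (D.F_le_F' T d hz)
  have hz2 : π z ∉ D'.F (d + 1) := fun h => D.notMem_F' T hTZ hzT ((hG _ _).1 h)
  have hcomm := D'.comm_of_dfilt hPQ hd hz1 hz2 (π a) (π b)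
  have h0 : π c = 0 := by rw [hc, map_sub, map_mul, map_mul, hcomm, sub_self]
  exact D.notMem_F' T hTZ hcT ((hπ0 c).1 h0 _)

end Pool.Agent.Lib.MP_5dc4fa_al.DV
end
end
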